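import Pool.Agent.H38.Ev.Line
import Pool.Agent.H2.Ev.Square

/-!
# M7 of MP_898b17_an, part 4: good lines
-/

open MeasureTheory Set Metric Filter Topology ContDiff
open scoped ENNReal RealInnerProductSpace

namespace Pool.Agent.H41.Ev

namespace M7

/-- One-dimensional estimate on a line. -/
theorem line_bound {ψ ψ' : ℝ → ℝ} (hd : ∀ x, HasDerivAt ψ (ψ' x) x) (hc : Continuous ψ')
    {g : ℝ → ℝ} {ρ a : ℝ} (hρ : 0 < ρ) (hg : ∀ x, ψ' x ^ 2 + (ψ x - a) ^ 2 / ρ ^ 2 ≤ g x)
    (hgc : Continuous g) {d M : ℝ} (hM : ∫ x in (d - 4 * ρ)..(d + 4 * ρ), g x ≤ 2 * M / ρ) {t : ℝ}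
    (ht : |t - d| ≤ 4 * ρ) : (ψ t - a) ^ 2 ≤ 32 * M := by
  have hψ : Continuous ψ := continuous_iff_continuousAt.2 fun x => (hd x).continuousAt
  have ht' : t ∈ Icc (d - 4 * ρ) (d + 4 * ρ) := by
    rw [abs_le] at ht
    constructor <;> linarith
  have h1 := sobolev_line hd hc (by linarith : d - 4 * ρ < d + 4 * ρ) ht' a
  have hle : d - 4 * ρ ≤ d + 4 * ρ := by linarith
  have e : d + 4 * ρ - (d - 4 * ρ) = 8 * ρ := by ring
  rw [e] at h1
  set A := ∫ x in (d - 4 * ρ)..(d + 4 * ρ), (ψ x - a) ^ 2 with hA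
  set B := ∫ x in (d - 4 * ρ)..(d + 4 * ρ), ψ' x ^ 2 with hB
  have hA0 : 0 ≤ A := intervalIntegral.integral_nonneg hle fun x _ => sq_nonneg _
  have hB0 : 0 ≤ B := intervalIntegral.integral_nonneg hle fun x _ => sq_nonneg _
  have i1 : IntervalIntegrable (fun x => ψ' x ^ 2) volume (d - 4 * ρ) (d + 4 * ρ) :=
    (hc.pow 2).intervalIntegrable _ _
  have i2 : IntervalIntegrable (fun x => (ψ x - a) ^ 2 / ρ ^ 2) volume (d - 4 * ρ) (d + 4 * ρ) :=
    (((hψ.sub continuous_const).pow 2).div_const _).intervalIntegrable _ _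
  have h2 : B + A / ρ ^ 2 ≤ ∫ x in (d - 4 * ρ)..(d + 4 * ρ), g x := by
    rw [hA, hB, ← intervalIntegral.integral_div, ← intervalIntegral.integral_add i1 i2]
    exact intervalIntegral.integral_mono_on hle (i1.add i2) (hgc.intervalIntegrable _ _)
      fun x _ => hg x
  have h3 : B + A / ρ ^ 2 ≤ 2 * M / ρ := h2.trans hM
  have h4 : 16 * ρ * (B + A / ρ ^ 2) ≤ 16 * ρ * (2 * M / ρ) :=
    mul_le_mul_of_nonneg_left h3 (by positivity)
  have e1 : 16 * ρ * (2 * M / ρ) = 32 * M := by field_simp; ring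
  have e2 : 16 * ρ * (B + A / ρ ^ 2) = 2 * (8 * ρ) * B + 16 * (A / ρ) := by field_simp; ring
  have e3 : 2 / (8 * ρ) * A = 1 / 4 * (A / ρ) := by field_simp; ring
  have h5 : 0 ≤ A / ρ := by positivity
  rw [e1, e2] at h4
  rw [e3] at h1
  linarith

/-- Good line. -/
theorem good_line {L : ℝ → ℝ → ℂ} {e : ℂ} (he : ‖e‖ = 1) (hL : ∀ s t, HasDerivAt (L s) e t)
    (hLc : Continuous fun x : ℝ × ℝ => L x.1 x.2)
    (hT : ∀ F : ℂ → ℝ≥0∞, Measurable F → ∫⁻ z, F z = ∫⁻ s, ∫⁻ t, F (L s t))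
    {S : Set ℂ} {c d ρ : ℝ} (hρ : 0 < ρ) (hSm : IsCompact S)
    (hS : ∀ s t, |s - c| ≤ 4 * ρ → |t - d| ≤ 4 * ρ → L s t ∈ S)
    {φ : ℕ → ℂ → ℝ} (hφ : ∀ n, IsTest univ (φ n)) {a M : ℝ} (hM : 0 < M)
    (hint : ∀ n, ∫ z in S, (‖gradient (φ n) z‖ ^ 2 + (φ n z - a) ^ 2 / ρ ^ 2) ≤ M)
    {α : ℝ} (hα : ∀ s, s ∈ Ioo α (α + ρ) → |s - c| ≤ 4 * ρ) :
    ∃ s ∈ Ioo α (α + ρ), ∃ ns : ℕ → ℕ, StrictMono ns ∧
      ∀ j t, |t - d| ≤ 4 * ρ → (φ (ns j) (L s t) - a) ^ 2 ≤ 32 * M := by
  set g : ℕ → ℂ → ℝ := fun n z => ‖gradient (φ n) z‖ ^ 2 + (φ n z - a) ^ 2 / ρ ^ 2 with hg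
  have hgc : ∀ n, Continuous (g n) := fun n =>
    ((hφ n).continuous_gradient.norm.pow 2).add
      ((((hφ n).continuous.sub continuous_const).pow 2).div_const _)
  have hg0 : ∀ n z, 0 ≤ g n z := fun n z => by positivity
  set I : Set ℝ := Icc (d - 4 * ρ) (d + 4 * ρ) with hI
  set h : ℕ → ℝ → ℝ≥0∞ := fun n s => ∫⁻ t in I, ENNReal.ofReal (g n (L s t)) with hh
  have hjm : ∀ n, Measurable fun x : ℝ × ℝ => ENNReal.ofReal (g n (L x.1 x.2)) := fun n =>
    ENNReal.measurable_ofReal.comp ((hgc n).comp hLc).measurable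
  have hhm : ∀ n, Measurable (h n) := fun n => (hjm n).lintegral_prod_right'
  -- the double integral
  have h1 : ∀ n, ∫⁻ s in Ioo α (α + ρ), h n s ≤ ENNReal.ofReal M := by
    intro n
    have k1 : ∫⁻ s in Ioo α (α + ρ), h n s ≤
        ∫⁻ s, ∫⁻ t, S.indicator (fun z => ENNReal.ofReal (g n z)) (L s t) := by
      rw [← lintegral_indicator measurableSet_Ioo]
      apply lintegral_mono
      intro s
      by_cases hs : s ∈ Ioo α (α + ρ)
      · rw [indicator_of_mem hs, hh]
        simp only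
        rw [← lintegral_indicator measurableSet_Icc]
        apply lintegral_mono
        intro t
        by_cases ht : t ∈ I
        · have ht' : |t - d| ≤ 4 * ρ := by
            rw [abs_le]
            constructor <;> [linarith [ht.1]; linarith [ht.2]]
          simp only
          rw [indicator_of_mem ht, indicator_of_mem (hS s t (hα s hs) ht')]
        · simp only
          rw [indicator_of_notMem ht]
          exact zero_le
      · rw [indicator_of_notMem hs]
        exact zero_le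
    refine k1.trans ?_
    have k2 : Measurable fun z => ENNReal.ofReal (g n z) :=
      ENNReal.measurable_ofReal.comp (hgc n).measurable
    rw [← hT _ (k2.indicator hSm.measurableSet), lintegral_indicator hSm.measurableSet,
      ← ofReal_integral_eq_lintegral_ofReal ((hgc n).continuousOn.integrableOn_compact hSm)
        (Eventually.of_forall fun z => hg0 n z)]
    exact ENNReal.ofReal_le_ofReal (hint n)
  have h2 : ∫⁻ s in Ioo α (α + ρ), liminf (fun n => h n s) atTop ≤ ENNReal.ofReal M := by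
    refine (lintegral_liminf_le hhm).trans ?_
    refine (liminf_le_liminf (Eventually.of_forall h1)).trans ?_
    rw [liminf_const]
  have hvol : volume (Ioo α (α + ρ)) = ENNReal.ofReal ρ := by
    rw [Real.volume_Ioo]; congr 1; ring
  obtain ⟨s, hs, hle⟩ := exists_le_setLAverage (μ := volume) (s := Ioo α (α + ρ))
    (f := fun s => liminf (fun n => h n s) atTop) (by rw [hvol]; simpa using hρ)
    (by rw [hvol]; exact ENNReal.ofReal_ne_top) (Measurable.liminf hhm).aemeasurable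
  rw [setLAverage_eq, hvol] at hle
  have h3 : liminf (fun n => h n s) atTop < ENNReal.ofReal (2 * M / ρ) := by
    refine hle.trans_lt ?_
    refine (ENNReal.div_le_div_right h2 _).trans_lt ?_
    rw [← ENNReal.ofReal_div_of_pos hρ]
    apply (ENNReal.ofReal_lt_ofReal_iff (by positivity)).2
    gcongr
    linarith
  have h4 : ∃ᶠ n in atTop, h n s < ENNReal.ofReal (2 * M / ρ) := frequently_lt_of_liminf_lt (by isBoundedDefault) h3
  obtain ⟨ns, hns, h5⟩ := extraction_of_frequently_atTop h4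
  refine ⟨s, hs, ns, hns, fun j t ht => ?_⟩
  have hd : ∀ x, HasDerivAt (fun x => φ (ns j) (L s x)) (fderiv ℝ (φ (ns j)) (L s x) e) x := by
    intro x
    have k1 : HasFDerivAt (φ (ns j)) (fderiv ℝ (φ (ns j)) (L s x)) (L s x) :=
      ((hφ (ns j)).differentiable _).hasFDerivAt
    exact k1.comp_hasDerivAt x (hL s x)
  have hLs : Continuous (L s) := hLc.comp (continuous_const.prodMk continuous_id)
  have hc : Continuous fun x => fderiv ℝ (φ (ns j)) (L s x) e := by
    have k1 : Continuous (fderiv ℝ (φ (ns j))) := (hφ (ns j)).1.continuous_fderiv (by simp)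
    exact (k1.comp hLs).clm_apply continuous_const
  refine line_bound hd hc (g := fun x => g (ns j) (L s x)) hρ ?_ ((hgc _).comp hLs) ?_ ht
  · intro x
    have k1 : |fderiv ℝ (φ (ns j)) (L s x) e| ≤ ‖gradient (φ (ns j)) (L s x)‖ := by
      rw [norm_gradient, ← Real.norm_eq_abs]
      have := (fderiv ℝ (φ (ns j)) (L s x)).le_opNorm e
      rwa [he, mul_one] at this
    have k2 : (fderiv ℝ (φ (ns j)) (L s x) e) ^ 2 ≤ ‖gradient (φ (ns j)) (L s x)‖ ^ 2 := by
      rw [← sq_abs (fderiv ℝ (φ (ns j)) (L s x) e)]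
      gcongr
    simp only [hg]
    linarith
  · have k1 := h5 j
    simp only [hh] at k1
    have k0 : Continuous fun t => g (ns j) (L s t) := (hgc _).comp hLs
    rw [← ofReal_integral_eq_lintegral_ofReal
      (k0.continuousOn.integrableOn_compact isCompact_Icc)
      (Eventually.of_forall fun z => hg0 _ _)] at k1
    have k2 := (ENNReal.ofReal_lt_ofReal_iff (by positivity)).1 k1
    rw [intervalIntegral.integral_of_le (by linarith), ← integral_Icc_eq_integral_Ioc]
    exact k2.le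

end M7

end Pool.Agent.H41.Ev
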