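import Pool.Agent.H38.Ev.Good
import Pool.Agent.H2.Ev.Cut

/-!
# M7 of MP_898b17_an, part 5: good rectangle
-/

open MeasureTheory Set Metric Filter Topology ContDiff
open scoped ENNReal RealInnerProductSpace ComplexConjugate

namespace Pool.Agent.H41.Ev

open Pool.Agent.H2.Ev

namespace M7

theorem isCompact_Sq (t : ℝ) (p : ℂ) : IsCompact (Sq t p) := by
  apply Metric.isCompact_of_isClosed_isBounded (isClosed_Sq t p)
  apply (Metric.isBounded_closedBall (x := p) (r := |t| + |t|)).subset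
  intro z hz
  rw [mem_closedBall, Complex.dist_eq]
  refine (Complex.norm_le_abs_re_add_abs_im _).trans ?_
  rw [Complex.sub_re, Complex.sub_im]
  exact add_le_add (hz.1.trans (le_abs_self t)) (hz.2.trans (le_abs_self t))

theorem hasDerivAt_vert (s t : ℝ) : HasDerivAt (fun t : ℝ => (⟨s, t⟩ : ℂ)) Complex.I t := by
  have h : (fun t : ℝ => (⟨s, t⟩ : ℂ)) = fun t : ℝ => (s : ℂ) + (t : ℂ) * Complex.I := by
    ext t
    apply Complex.ext <;> simp
  rw [h]
  have h1 : HasDerivAt (fun t : ℝ => (t : ℂ)) 1 t := Complex.ofRealCLM.hasDerivAt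
  simpa using (h1.mul_const Complex.I).const_add (s : ℂ)

theorem hasDerivAt_horiz (s t : ℝ) : HasDerivAt (fun t : ℝ => (⟨t, s⟩ : ℂ)) 1 t := by
  have h : (fun t : ℝ => (⟨t, s⟩ : ℂ)) = fun t : ℝ => (t : ℂ) + (s : ℂ) * Complex.I := by
    ext t
    apply Complex.ext <;> simp
  rw [h]
  have h1 : HasDerivAt (fun t : ℝ => (t : ℂ)) 1 t := Complex.ofRealCLM.hasDerivAt
  simpa using h1.add_const ((s : ℂ) * Complex.I)

/-- Approximating test functions with small energy on the square. -/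
theorem exists_tests {w : ℂ → ℝ} {W : ℂ → ℂ} (h : H10 univ w W) {S : Set ℂ} (hS : IsCompact S)
    {a ρ M : ℝ} (hM : (∫ z in S, ‖W z‖ ^ 2) + (∫ z in S, (w z - a) ^ 2) / ρ ^ 2 < M) :
    ∃ φ : ℕ → ℂ → ℝ, (∀ n, IsTest univ (φ n)) ∧
      Tendsto (fun n => eLpNorm (fun z => φ n z - w z) 2 volume) atTop (𝓝 0) ∧
      Tendsto (fun n => eLpNorm (fun z => gradient (φ n) z - W z) 2 volume) atTop (𝓝 0) ∧
      (∀ᵐ z, Tendsto (fun n => φ n z) atTop (𝓝 (w z))) ∧
      (∀ᵐ z, Tendsto (fun n => gradient (φ n) z) atTop (𝓝 (W z))) ∧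
      ∀ n, ∫ z in S, (‖gradient (φ n) z‖ ^ 2 + (φ n z - a) ^ 2 / ρ ^ 2) ≤ M := by
  obtain ⟨φ, h1, h2, h3, h4, h5⟩ := h.exists_approx_ae
  have : IsFiniteMeasure (volume.restrict S) := ⟨by simpa using hS.measure_lt_top⟩
  have mc : MemLp (fun _ : ℂ => a) 2 (volume.restrict S) := memLp_const _
  have mw : MemLp (fun z => w z - a) 2 (volume.restrict S) :=
    (h.1.mono_measure Measure.restrict_le_self).sub mc
  have mφ : ∀ n, MemLp (fun z => φ n z - a) 2 (volume.restrict S) := fun n =>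
    (((h1 n).memLp 2).mono_measure Measure.restrict_le_self).sub mc
  have mW : MemLp W 2 (volume.restrict S) := h.2.mono_measure Measure.restrict_le_self
  have mG : ∀ n, MemLp (gradient (φ n)) 2 (volume.restrict S) := fun n =>
    ((h1 n).memLp_gradient 2).mono_measure Measure.restrict_le_self
  have l1 : Tendsto (fun n => ∫ z in S, (φ n z - a) ^ 2) atTop (𝓝 (∫ z in S, (w z - a) ^ 2)) := by
    have := tendsto_integral_sq_norm mφ mw (by
      refine tendsto_of_tendsto_of_tendsto_of_le_of_le tendsto_const_nhds h2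
        (fun n => zero_le) fun n => ?_
      simp only [sub_sub_sub_cancel_right]
      exact eLpNorm_mono_measure _ Measure.restrict_le_self)
    simpa using this
  have l2 : Tendsto (fun n => ∫ z in S, ‖gradient (φ n) z‖ ^ 2) atTop
      (𝓝 (∫ z in S, ‖W z‖ ^ 2)) := by
    apply tendsto_integral_sq_norm mG mW
    refine tendsto_of_tendsto_of_tendsto_of_le_of_le tendsto_const_nhds h3
      (fun n => zero_le) fun n => ?_
    exact eLpNorm_mono_measure _ Measure.restrict_le_self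
  have l3 : Tendsto (fun n => ∫ z in S, (‖gradient (φ n) z‖ ^ 2 + (φ n z - a) ^ 2 / ρ ^ 2)) atTop
      (𝓝 ((∫ z in S, ‖W z‖ ^ 2) + (∫ z in S, (w z - a) ^ 2) / ρ ^ 2)) := by
    have e : ∀ n, ∫ z in S, (‖gradient (φ n) z‖ ^ 2 + (φ n z - a) ^ 2 / ρ ^ 2) =
        (∫ z in S, ‖gradient (φ n) z‖ ^ 2) + (∫ z in S, (φ n z - a) ^ 2) / ρ ^ 2 := by
      intro n
      rw [integral_add (integrable_sq_norm (mG n))
        (by simpa using (integrable_sq_norm (mφ n)).div_const (ρ ^ 2)), integral_div]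
    simp only [e]
    exact l2.add (l1.div_const _)
  obtain ⟨N, hN⟩ := eventually_atTop.1 (l3.eventually (eventually_lt_nhds hM))
  refine ⟨fun n => φ (n + N), fun n => h1 _, ?_, ?_, ?_, ?_, fun n => (hN (n + N) (by omega)).le⟩
  · exact (tendsto_add_atTop_iff_nat (f := fun n => eLpNorm (fun z => φ n z - w z) 2 volume) N).2 h2
  · exact (tendsto_add_atTop_iff_nat
      (f := fun n => eLpNorm (fun z => gradient (φ n) z - W z) 2 volume) N).2 h3
  · filter_upwards [h4] with z hz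
    exact (tendsto_add_atTop_iff_nat (f := fun n => φ n z) N).2 hz
  · filter_upwards [h5] with z hz
    exact (tendsto_add_atTop_iff_nat (f := fun n => gradient (φ n) z) N).2 hz

end M7

open M7

/-- Lemma G: good rectangle (stated as: a good open set between two squares). -/
theorem good_rectangle : ∃ e₁ : ℝ, 0 < e₁ ∧ ∀ (w : ℂ → ℝ) (W : ℂ → ℂ), H10 univ w W →
    ∀ (p : ℂ) (ρ : ℝ), 0 < ρ → ∫ z in Sq (4 * ρ) p, ‖W z‖ ^ 2 ≤ e₁ →
      7 / 10 * (64 * ρ ^ 2) ≤ ∫ z in Sq (4 * ρ) p, w z →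
      ∃ B : Set ℂ, IsOpen B ∧ Sq (2 * ρ) p ⊆ B ∧ B ⊆ Sq (3 * ρ) p ∧
        ∀ c : ℝ, (c = 1 / 2 ∨ c = 11 / 20) →
          H10 B (B.indicator fun z => max (c - w z) 0)
            ((B ∩ {z | w z < c}).indicator fun z => - W z) := by
  obtain ⟨C, hC, hP⟩ := square_poincare
  refine ⟨1 / (5000 * (1 + 16 * C)), by positivity, fun w W hw p ρ hρ hE hav => ?_⟩
  set S := Sq (4 * ρ) p with hS
  have hSc : IsCompact S := isCompact_Sq _ _
  set a : ℝ := ⨍ x in S, w x with ha
  have hvol : volume.real S = 64 * ρ ^ 2 := by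
    rw [hS, volume_real_Sq (by positivity)]; ring
  have ha7 : 7 / 10 ≤ a := by
    rw [ha, setAverage_eq, hvol, smul_eq_mul, inv_mul_eq_div, le_div_iff₀ (by positivity)]
    exact hav
  have hP1 := hP w W hw p (4 * ρ) (by positivity)
  rw [← hS, ← ha] at hP1
  have hM : (∫ z in S, ‖W z‖ ^ 2) + (∫ z in S, (w z - a) ^ 2) / ρ ^ 2 < 1 / 4000 := by
    have k1 : (∫ z in S, (w z - a) ^ 2) / ρ ^ 2 ≤ 16 * C * ∫ z in S, ‖W z‖ ^ 2 := by
      rw [div_le_iff₀ (by positivity)]
      calc _ ≤ _ := hP1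
        _ = _ := by ring
    have k2 : (1 + 16 * C) * (∫ z in S, ‖W z‖ ^ 2) ≤ (1 + 16 * C) * (1 / (5000 * (1 + 16 * C))) :=
      mul_le_mul_of_nonneg_left hE (by positivity)
    have k3 : (1 + 16 * C) * (1 / (5000 * (1 + 16 * C))) = 1 / 5000 := by field_simp
    rw [k3] at k2
    linarith
  obtain ⟨φ, t1, t2, t3, t4, t5, t6⟩ := exists_tests hw hSc hM
  -- vertical lines
  have Lv : Continuous fun x : ℝ × ℝ => (⟨x.1, x.2⟩ : ℂ) :=
    Complex.equivRealProdCLM.symm.continuous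
  have Lh : Continuous fun x : ℝ × ℝ => (⟨x.2, x.1⟩ : ℂ) :=
    Complex.equivRealProdCLM.symm.continuous.comp (continuous_snd.prodMk continuous_fst)
  have hSv : ∀ s t : ℝ, |s - p.re| ≤ 4 * ρ → |t - p.im| ≤ 4 * ρ → (⟨s, t⟩ : ℂ) ∈ S :=
    fun s t h1 h2 => ⟨h1, h2⟩
  have hSh : ∀ s t : ℝ, |s - p.im| ≤ 4 * ρ → |t - p.re| ≤ 4 * ρ → (⟨t, s⟩ : ℂ) ∈ S :=
    fun s t h1 h2 => ⟨h2, h1⟩
  have hα1 : ∀ c s : ℝ, s ∈ Ioo (c - 3 * ρ) (c - 3 * ρ + ρ) → |s - c| ≤ 4 * ρ := by
    intro c s hs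
    rw [abs_le]
    constructor <;> [linarith [hs.1]; linarith [hs.2]]
  have hα2 : ∀ c s : ℝ, s ∈ Ioo (c + 2 * ρ) (c + 2 * ρ + ρ) → |s - c| ≤ 4 * ρ := by
    intro c s hs
    rw [abs_le]
    constructor <;> [linarith [hs.1]; linarith [hs.2]]
  obtain ⟨xl, hxl, n1, hn1, b1⟩ := good_line (L := fun s t => (⟨s, t⟩ : ℂ)) Complex.norm_I
    hasDerivAt_vert Lv (fun F hF => lintegral_complex hF) hρ hSc hSv
    t1 (by norm_num : (0 : ℝ) < 1 / 4000) t6 (hα1 p.re)
  obtain ⟨xr, hxr, n2, hn2, b2⟩ := good_line (L := fun s t => (⟨s, t⟩ : ℂ)) Complex.norm_I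
    hasDerivAt_vert Lv (fun F hF => lintegral_complex hF) hρ hSc hSv
    (fun n => t1 (n1 n)) (by norm_num : (0 : ℝ) < 1 / 4000) (fun n => t6 (n1 n)) (hα2 p.re)
  obtain ⟨yb, hyb, n3, hn3, b3⟩ := good_line (L := fun s t => (⟨t, s⟩ : ℂ)) norm_one
    hasDerivAt_horiz Lh (fun F hF => lintegral_complex' hF) hρ hSc hSh
    (fun n => t1 (n1 (n2 n))) (by norm_num : (0 : ℝ) < 1 / 4000) (fun n => t6 (n1 (n2 n)))
    (hα1 p.im)
  obtain ⟨yt, hyt, n4, hn4, b4⟩ := good_line (L := fun s t => (⟨t, s⟩ : ℂ)) norm_one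
    hasDerivAt_horiz Lh (fun F hF => lintegral_complex' hF) hρ hSc hSh
    (fun n => t1 (n1 (n2 (n3 n)))) (by norm_num : (0 : ℝ) < 1 / 4000)
    (fun n => t6 (n1 (n2 (n3 n)))) (hα2 p.im)
  set N : ℕ → ℕ := fun n => n1 (n2 (n3 (n4 n))) with hN
  have hNt : Tendsto N atTop atTop :=
    (hn1.comp (hn2.comp (hn3.comp hn4))).tendsto_atTop
  have hxlr : xl < xr := by linarith [hxl.2, hxr.1]
  have hybt : yb < yt := by linarith [hyb.2, hyt.1]
  have key : ∀ x : ℝ, (x - a) ^ 2 ≤ 32 * (1 / 4000) → 3 / 5 < x := by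
    intro x hx
    nlinarith
  refine ⟨Ioo xl xr ×ℂ Ioo yb yt, isOpen_Ioo.reProdIm isOpen_Ioo, ?_, ?_, ?_⟩
  · intro z hz
    obtain ⟨h1, h2⟩ := hz
    rw [abs_le] at h1 h2
    refine ⟨⟨?_, ?_⟩, ?_, ?_⟩
    · linarith [hxl.2]
    · linarith [hxr.1]
    · linarith [hyb.2]
    · linarith [hyt.1]
  · intro z hz
    obtain ⟨⟨h1, h2⟩, h3, h4⟩ := hz
    constructor
    · rw [abs_le]
      constructor <;> [linarith [hxl.1]; linarith [hxr.2]]
    · rw [abs_le]
      constructor <;> [linarith [hyb.1]; linarith [hyt.2]]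
  · intro c hc
    refine cut_limit hw (isOpen_Ioo.reProdIm isOpen_Ioo) ?_ (φ := fun n => φ (N n))
      (fun n => t1 _) (t2.comp hNt) (t3.comp hNt) ?_ ?_ (b := 3 / 5) ?_ ?_
    · apply hSc.isBounded.subset
      intro z hz
      obtain ⟨⟨h1, h2⟩, h3, h4⟩ := hz
      constructor
      · rw [abs_le]
        constructor <;> [linarith [hxl.1]; linarith [hxr.2]]
      · rw [abs_le]
        constructor <;> [linarith [hyb.1]; linarith [hyt.2]]
    · filter_upwards [t4] with z hz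
      exact hz.comp hNt
    · filter_upwards [t5] with z hz
      exact hz.comp hNt
    · intro n z hz
      rw [Complex.frontier_reProdIm, closure_Ioo hxlr.ne, closure_Ioo hybt.ne, frontier_Ioo hxlr,
        frontier_Ioo hybt] at hz
      have e : z = ⟨z.re, z.im⟩ := rfl
      rcases hz with ⟨⟨h1, h2⟩, h3⟩ | ⟨h3, h1, h2⟩
      · have hre : |z.re - p.re| ≤ 4 * ρ := by
          rw [abs_le]
          constructor <;> [linarith [hxl.1]; linarith [hxr.2]]
        rcases h3 with h3 | h3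
        · have := b3 (n4 n) z.re hre
          apply key
          rw [e]
          have h3' : z.im = yb := h3
          rw [h3']
          exact this
        · have := b4 n z.re hre
          apply key
          rw [e]
          have h3' : z.im = yt := h3
          rw [h3']
          exact this
      · have him : |z.im - p.im| ≤ 4 * ρ := by
          rw [abs_le]
          constructor <;> [linarith [hyb.1]; linarith [hyt.2]]
        rcases h3 with h3 | h3
        · have := b1 (n2 (n3 (n4 n))) z.im him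
          apply key
          rw [e]
          have h3' : z.re = xl := h3
          rw [h3']
          exact this
        · have := b2 (n3 (n4 n)) z.im him
          apply key
          rw [e]
          have h3' : z.re = xr := h3
          rw [h3']
          exact this
    · rcases hc with h | h <;> rw [h] <;> norm_num

end Pool.Agent.H41.Ev
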