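import Pool.Agent.H38.Ev.Improve
import Pool.Agent.H38.Ev.Rect

/-!
# M7 of MP_898b17_an, part 6: high non-energetic squares
-/

open MeasureTheory Set Metric Filter Topology ContDiff
open scoped ENNReal RealInnerProductSpace

namespace Pool.Agent.H41.Ev

open Pool.Agent.H2.Ev M7

/-- (5): `w ≥ 1/2` near high non-energetic squares. -/
theorem high_square : ∃ e₁ : ℝ, 0 < e₁ ∧ ∃ ρ₀ : ℝ, 0 < ρ₀ ∧ ∀ q : ℝ, 1 ≤ q → q ≤ 2 →
    ∀ (Ω : Set ℂ) (w : ℂ → ℝ) (W : ℂ → ℂ), IsOpen Ω → 0 < volume Ω → volume Ω < ⊤ → RQ Ω 1 →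
      IsTorsion Ω w W →
      NoBetter (E := ℂ) q ((∫ z, w z) ^ q / (volume Ω).toReal ^ (2 * q - 1)) →
      ∀ ρ : ℝ, 0 < ρ → ρ ≤ ρ₀ → ∀ p : ℂ, ∫ z in Sq (4 * ρ) p, ‖W z‖ ^ 2 ≤ e₁ →
        7 / 10 * (64 * ρ ^ 2) ≤ ∫ z in Sq (4 * ρ) p, w z →
        ∀ᵐ z ∂volume.restrict (Sq (2 * ρ) p), 1 / 2 ≤ w z := by
  obtain ⟨e, he, hG⟩ := good_rectangle
  obtain ⟨e', he', m, hm, hI⟩ := improvement
  refine ⟨min e e', lt_min he he', Real.sqrt m / 6, by positivity, ?_⟩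
  intro q hq hq2 Ω w W hΩ hpos hfin hR hw hNB ρ hρ hρ0 p hE hav
  obtain ⟨B, hBo, hB2, hB3, hB⟩ := hG w W (hw.1.mono (subset_univ _)) p ρ hρ
    (hE.trans (min_le_left _ _)) hav
  have h1 : volume B ≤ ENNReal.ofReal m := by
    refine (measure_mono hB3).trans ?_
    rw [← ofReal_measureReal (volume_Sq_lt_top _ _).ne, volume_real_Sq (by positivity)]
    apply ENNReal.ofReal_le_ofReal
    have h2 : 6 * ρ ≤ Real.sqrt m := by linarith
    have h3 : (6 * ρ) ^ 2 ≤ Real.sqrt m ^ 2 := by gcongr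
    rw [Real.sq_sqrt hm.le] at h3
    nlinarith
  have h2 : ∫ z in B, ‖W z‖ ^ 2 ≤ e' := by
    refine le_trans ?_ (hE.trans (min_le_right _ _))
    apply setIntegral_mono_set
    · exact ((memLp_two_iff_integrable_sq_norm hw.1.2.1).1 hw.1.2).integrableOn
    · exact Eventually.of_forall fun z => by positivity
    · apply LE.le.eventuallyLE
      refine hB3.trans ?_
      intro z hz
      exact ⟨hz.1.trans (by linarith), hz.2.trans (by linarith)⟩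
  have h3 := hI q hq hq2 Ω w W hΩ hpos hfin hR hw hNB B hBo h1 h2 hB
  exact ae_mono (Measure.restrict_mono hB2 le_rfl) h3

end Pool.Agent.H41.Ev
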