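import Pool.Agent.H38.Ev.Star
import Pool.Agent.H47.Ev.Relaxed
import Pool.Agent.H2.Ev.Ineq

/-!
# M7 of MP_898b17_an, part 2: the improvement step
-/

open MeasureTheory Set Metric Filter Topology ContDiff
open scoped ENNReal RealInnerProductSpace

namespace Pool.Agent.H41.Ev

open Pool.Agent.H2.Ev

namespace M7

variable {Ω U B : Set ℂ} {u v w : ℂ → ℝ} {G H W : ℂ → ℂ}

theorem torsion_eq (hΩ : IsOpen Ω) (hfin : volume Ω < ⊤) (hw : IsTorsion Ω w W) :
    ∫ z, ‖W z‖ ^ 2 = ∫ z, w z := by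
  rw [← hw.all hΩ hfin hw.1]
  congr 1
  ext z
  rw [real_inner_self_eq_norm_sq]

theorem torsion_pos (hΩ : IsOpen Ω) (hpos : 0 < volume Ω) (hfin : volume Ω < ⊤)
    (hw : IsTorsion Ω w W) : 0 < ∫ z, w z := by
  have h0 : 0 ≤ ∫ z, w z := integral_nonneg_of_ae (hw.nonneg hΩ hfin)
  rcases h0.eq_or_lt with h | h
  · exfalso
    have h1 : ∫ z, ‖W z‖ ^ 2 = 0 := by rw [torsion_eq hΩ hfin hw, ← h]
    rw [integral_eq_zero_iff_of_nonneg (fun z => by positivity)
      ((memLp_two_iff_integrable_sq_norm hw.1.2.1).1 hw.1.2)] at h1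
    obtain ⟨x, hx⟩ : Ω.Nonempty := nonempty_of_measure_ne_zero hpos.ne'
    obtain ⟨f, hf1, hf2, hf3, hf4, hf5⟩ := exists_contDiff_tsupport_subset (n := ⊤)
      (hΩ.mem_nhds hx)
    have ht : IsTest Ω f := ⟨hf3, hf2, hf1⟩
    have h2 := hw.2 f ht
    have h3 : ∫ z, ⟪W z, gradient f z⟫ = 0 := by
      rw [← integral_zero ℂ ℝ]
      apply integral_congr_ae
      filter_upwards [h1] with z hz
      have : W z = 0 := by
        have h4 : ‖W z‖ ^ 2 = 0 := hz
        simpa using h4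
      rw [this, inner_zero_left]
    have h4 : 0 < ∫ z, f z := hf3.continuous.integral_pos_of_hasCompactSupport_nonneg_nonzero hf2
      (fun z => (hf4 (mem_range_self z)).1) (x := x) (by rw [hf5]; exact one_ne_zero)
    linarith
  · exact h

/-- `T ≤ |Ω|`. -/
theorem torsion_le (hΩ : IsOpen Ω) (hfin : volume Ω < ⊤) (hR : RQ Ω 1)
    (hw : IsTorsion Ω w W) : ∫ z, w z ≤ (volume Ω).toReal := by
  have hwi : Integrable w volume := hw.1.integrable hΩ hfin
  have hw2 : Integrable (fun z => w z ^ 2) volume := hw.1.1.integrable_sq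
  have h1 := hR.all hw.1
  rw [torsion_eq hΩ hfin hw, one_mul] at h1
  have hae := hw.1.ae_zero hΩ
  have h2 : ∫ z in Ω, w z = ∫ z, w z := by
    rw [setIntegral_eq_integral_of_ae_compl_eq_zero]
    filter_upwards [hae] with z hz hz'
    exact (hz hz').1
  have h3 : ∫ z in Ω, w z ^ 2 ≤ ∫ z, w z ^ 2 :=
    setIntegral_le_integral hw2 (Eventually.of_forall fun z => sq_nonneg _)
  have h4 : 0 ≤ ∫ z in Ω, (1 - w z) ^ 2 := integral_nonneg fun z => sq_nonneg _
  have h5 : ∫ z in Ω, (1 - w z) ^ 2 = (volume Ω).toReal - 2 * (∫ z in Ω, w z) +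
      ∫ z in Ω, w z ^ 2 := by
    have e : (fun z => (1 - w z) ^ 2) = fun z => (1 - 2 * w z) + w z ^ 2 := by
      ext z; ring
    have i1 : Integrable (fun _ : ℂ => (1 : ℝ)) (volume.restrict Ω) :=
      integrableOn_const hfin.ne
    have i2 : Integrable (fun z => 2 * w z) (volume.restrict Ω) := hwi.integrableOn.const_mul 2
    have i3 : Integrable (fun z => 1 - 2 * w z) (volume.restrict Ω) := i1.sub i2
    rw [e, integral_add i3 hw2.integrableOn, integral_sub i1 i2, integral_const_mul]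
    simp [Measure.real]
  rw [h2] at h5
  linarith

/-- The competitor bound for the relaxed competitor. -/
theorem noBetter_relaxed {q : ℝ} (hq : 1 ≤ q) {T' S : ℝ} (hT' : 0 < T') (hS : 0 ≤ S)
    (hUfin : volume U < ⊤) (hNB : NoBetter (E := ℂ) q S)
    (h : ∀ η : ℝ, 0 < η → ∃ Ω' : Set ℂ, IsOpen Ω' ∧ Ω' ⊆ U ∧ RQ Ω' (1 - η) ∧ TLow Ω' (T' - η)) :
    T' ^ q ≤ S * (volume U).toReal ^ (2 * q - 1) := by
  have hlim : Tendsto (fun n : ℕ => (1 - 1 / ((n : ℝ) + 1)) * (T' - 1 / ((n : ℝ) + 1)) ^ q) atTop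
      (𝓝 (T' ^ q)) := by
    have h1 : Tendsto (fun n : ℕ => 1 / ((n : ℝ) + 1)) atTop (𝓝 0) :=
      tendsto_one_div_add_atTop_nhds_zero_nat
    have h2 := (tendsto_const_nhds (x := (1 : ℝ))).sub h1
    have h3 := ((tendsto_const_nhds (x := T')).sub h1).rpow_const (p := q)
      (Or.inr (by linarith))
    have h4 := h2.mul h3
    simpa using h4
  apply le_of_tendsto hlim
  have hev : ∀ᶠ n : ℕ in atTop, 1 / ((n : ℝ) + 1) < min T' 1 :=
    tendsto_one_div_add_atTop_nhds_zero_nat.eventually (gt_mem_nhds (lt_min hT' one_pos))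
  filter_upwards [hev] with n hn
  have hη : (0 : ℝ) < 1 / ((n : ℝ) + 1) := by positivity
  obtain ⟨Ω', h1, h2, h3, h4⟩ := h _ hη
  have h5 := hNB Ω' h1 ((measure_mono h2).trans_lt hUfin) _ _
    (by linarith [hn.trans_le (min_le_right T' 1)])
    (by linarith [hn.trans_le (min_le_left T' 1)]) h3 h4
  refine h5.trans (mul_le_mul_of_nonneg_left ?_ hS)
  apply Real.rpow_le_rpow ENNReal.toReal_nonneg _ (by linarith)
  exact ENNReal.toReal_mono hUfin.ne (measure_mono h2)

/-- Lower bound for the area. -/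
theorem area_lower {C : ℝ} (hC : 0 < C)
    (hP : ∀ (Ω : Set ℂ) (u : ℂ → ℝ) (G : ℂ → ℂ), IsOpen Ω →
      volume Ω < ⊤ → H10 Ω u G → ∫ z, u z ^ 2 ≤ C * (volume Ω).toReal * ∫ z, ‖G z‖ ^ 2)
    {q : ℝ} (hq : 1 ≤ q) (hΩ : IsOpen Ω) (hpos : 0 < volume Ω) (hfin : volume Ω < ⊤)
    (hw : IsTorsion Ω w W)
    (hNB : NoBetter (E := ℂ) q ((∫ z, w z) ^ q / (volume Ω).toReal ^ (2 * q - 1))) :
    1 / C ≤ (volume Ω).toReal := by
  by_contra hlt
  rw [not_le] at hlt
  have hA : 0 < (volume Ω).toReal := ENNReal.toReal_pos hpos.ne' hfin.ne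
  have hT := torsion_pos hΩ hpos hfin hw
  set A := (volume Ω).toReal with hAdef
  set T := ∫ z, w z with hTdef
  have hCA : 0 < C * A := mul_pos hC hA
  have hCA1 : C * A < 1 := by
    rw [lt_div_iff₀ hC] at hlt
    linarith [mul_comm A C]
  have hRQ : RQ Ω (1 / (C * A)) := by
    intro φ hφ
    have := hP Ω φ _ hΩ hfin hφ.h10
    rw [div_mul_eq_mul_div, one_mul, div_le_iff₀ hCA]
    calc ∫ z, φ z ^ 2 ≤ C * A * ∫ z, ‖gradient φ z‖ ^ 2 := this
      _ = (∫ z, ‖gradient φ z‖ ^ 2) * (C * A) := mul_comm _ _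
  have hlim : Tendsto (fun n : ℕ => (1 / (C * A)) * (T - 1 / ((n : ℝ) + 1)) ^ q) atTop
      (𝓝 ((1 / (C * A)) * T ^ q)) := by
    have h1 : Tendsto (fun n : ℕ => 1 / ((n : ℝ) + 1)) atTop (𝓝 0) :=
      tendsto_one_div_add_atTop_nhds_zero_nat
    have h3 := ((tendsto_const_nhds (x := T)).sub h1).rpow_const (p := q)
      (Or.inr (by linarith))
    have h4 := h3.const_mul (1 / (C * A))
    simpa using h4
  have hle : (1 / (C * A)) * T ^ q ≤ T ^ q := by
    apply le_of_tendsto hlim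
    have hev : ∀ᶠ n : ℕ in atTop, 1 / ((n : ℝ) + 1) < T :=
      tendsto_one_div_add_atTop_nhds_zero_nat.eventually (gt_mem_nhds hT)
    filter_upwards [hev] with n hn
    have hη : (0 : ℝ) < 1 / ((n : ℝ) + 1) := by positivity
    have hTL : TLow Ω (T - 1 / ((n : ℝ) + 1)) := by
      apply hw.1.tLow hΩ hfin
      rw [torsion_eq hΩ hfin hw]
      linarith
    have h5 := hNB Ω hΩ hfin _ _ (by positivity) (by linarith) hRQ hTL
    refine h5.trans (le_of_eq ?_)
    have : 0 < A ^ (2 * q - 1) := Real.rpow_pos_of_pos hA _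
    rw [← hAdef]
    field_simp
  have hTq : 0 < T ^ q := Real.rpow_pos_of_pos hT _
  have h6 : 1 < 1 / (C * A) := by
    rw [lt_div_iff₀ hCA]; linarith
  nlinarith

/-- The real-number inequality. -/
theorem real_ineq {q A T m F : ℝ} (hq : 1 ≤ q) (hq2 : q ≤ 2) (hA : 0 < A) (hT : 0 < T)
    (hTA : T ≤ A) (hm : 0 ≤ m) (hmA : m ≤ A) (hF : 0 < F) (hFm : 10 * m ≤ F)
    (h : (T + F) ^ q ≤ T ^ q / A ^ (2 * q - 1) * (A + m) ^ (2 * q - 1)) : False := by
  have hAq : 0 < A ^ (2 * q - 1) := Real.rpow_pos_of_pos hA _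
  have hTq : 0 < T ^ q := Real.rpow_pos_of_pos hT _
  have e1 : (T + F) ^ q = T ^ q * (1 + F / T) ^ q := by
    rw [← Real.mul_rpow hT.le (by positivity)]
    congr 1
    field_simp
  have e2 : (A + m) ^ (2 * q - 1) = A ^ (2 * q - 1) * (1 + m / A) ^ (2 * q - 1) := by
    rw [← Real.mul_rpow hA.le (by positivity)]
    congr 1
    field_simp
  rw [e1, e2] at h
  have h1 : (1 + F / T) ^ q ≤ (1 + m / A) ^ (2 * q - 1) := by
    have e3 : T ^ q / A ^ (2 * q - 1) * (A ^ (2 * q - 1) * (1 + m / A) ^ (2 * q - 1)) =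
        T ^ q * (1 + m / A) ^ (2 * q - 1) := by
      field_simp
    rw [e3] at h
    exact le_of_mul_le_mul_left h hTq
  have hy0 : 0 ≤ m / A := by positivity
  have hy1 : m / A ≤ 1 := by rw [div_le_one hA]; exact hmA
  have hFT : 10 * (m / A) ≤ F / T := by
    calc 10 * (m / A) = (10 * m) / A := by ring
      _ ≤ F / A := div_le_div_of_nonneg_right hFm hA.le
      _ ≤ F / T := div_le_div_of_nonneg_left hF.le hT hTA
  have hFTpos : 0 < F / T := by positivity
  have h2 : 1 + F / T ≤ (1 + F / T) ^ q := by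
    calc 1 + F / T = (1 + F / T) ^ (1 : ℝ) := by rw [Real.rpow_one]
      _ ≤ _ := Real.rpow_le_rpow_of_exponent_le (by linarith) hq
  have h3 : (1 + m / A) ^ (2 * q - 1) ≤ (1 + m / A) ^ (3 : ℝ) :=
    Real.rpow_le_rpow_of_exponent_le (by linarith) (by linarith)
  have h4 : (1 + m / A) ^ (3 : ℝ) = (1 + m / A) ^ 3 := by
    rw [← Real.rpow_natCast]; norm_num
  rw [h4] at h3
  have h5 : (1 + m / A) ^ 3 ≤ 1 + 7 * (m / A) := by nlinarith [mul_nonneg hy0 hy0]
  have h6 : F / T ≤ 7 * (m / A) := by linarith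
  have h7 : 0 < m / A := by
    by_contra hcon
    have : m / A = 0 := le_antisymm (not_lt.1 hcon) hy0
    rw [this] at h6
    linarith
  linarith

end M7

open M7

/-- Lemma I. -/
theorem improvement : ∃ e₁ : ℝ, 0 < e₁ ∧ ∃ m₁ : ℝ, 0 < m₁ ∧ ∀ q : ℝ, 1 ≤ q → q ≤ 2 →
    ∀ (Ω : Set ℂ) (w : ℂ → ℝ) (W : ℂ → ℂ), IsOpen Ω → 0 < volume Ω → volume Ω < ⊤ → RQ Ω 1 →
      IsTorsion Ω w W →
      NoBetter (E := ℂ) q ((∫ z, w z) ^ q / (volume Ω).toReal ^ (2 * q - 1)) →
      ∀ B : Set ℂ, IsOpen B → volume B ≤ ENNReal.ofReal m₁ → ∫ z in B, ‖W z‖ ^ 2 ≤ e₁ →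
        (∀ c : ℝ, (c = 1 / 2 ∨ c = 11 / 20) →
          H10 B (B.indicator fun z => max (c - w z) 0)
            ((B ∩ {z | w z < c}).indicator fun z => - W z)) →
        ∀ᵐ z ∂volume.restrict B, 1 / 2 ≤ w z := by
  classical
  obtain ⟨CN, hCN, hN⟩ := nash
  obtain ⟨CP, hCP, hP⟩ := poincare
  refine ⟨(1 / (40 * CN)) ^ 2, by positivity, 1 / CP, by positivity, ?_⟩
  intro q hq hq2 Ω w W hΩ hpos hfin hR hw hNB B hB hBm hBe hBc
  have hf := hBc (1 / 2) (Or.inl rfl)
  have hBfin : volume B < ⊤ := hBm.trans_lt ENNReal.ofReal_lt_top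
  set f : ℂ → ℝ := B.indicator fun z => max (1 / 2 - w z) 0 with hfdef
  set F : ℂ → ℂ := (B ∩ {z | w z < 1 / 2}).indicator fun z => - W z with hFdef
  have hf0 : ∀ z, 0 ≤ f z := fun z => indicator_nonneg (fun _ _ => le_max_right _ _) z
  have hfi : Integrable f volume := hf.integrable hB hBfin
  have hwi : Integrable w volume := hw.1.integrable hΩ hfin
  have hUo : IsOpen (Ω ∪ B) := hΩ.union hB
  have hUfin : volume (Ω ∪ B) < ⊤ := (measure_union_le _ _).trans_lt (ENNReal.add_lt_top.2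
    ⟨hfin, hBfin⟩)
  have hA := area_lower hCP hP hq hΩ hpos hfin hw hNB
  have hApos : 0 < (volume Ω).toReal := ENNReal.toReal_pos hpos.ne' hfin.ne
  have hT := torsion_pos hΩ hpos hfin hw
  have hTA := torsion_le hΩ hfin hR hw
  -- it suffices that `∫ f = 0`
  suffices hzero : ∫ z, f z = 0 by
    rw [integral_eq_zero_iff_of_nonneg hf0 hfi] at hzero
    rw [ae_restrict_iff' hB.measurableSet]
    filter_upwards [hzero] with z hz hzB
    have h1 : f z = 0 := hz
    rw [hfdef, indicator_of_mem hzB] at h1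
    have h2 : 1 / 2 - w z ≤ 0 := by
      rw [← h1]; exact le_max_left _ _
    linarith
  by_contra hne
  have hfpos : 0 < ∫ z, f z := lt_of_le_of_ne (integral_nonneg hf0) (Ne.symm hne)
  -- the relaxed competitor
  have hw' : H10 (Ω ∪ B) (fun z => w z + f z) (fun z => W z + F z) :=
    (hw.1.mono subset_union_left).add (hf.mono subset_union_right)
  have hrel : ∀ η : ℝ, 0 < η → ∃ Ω' : Set ℂ, IsOpen Ω' ∧ Ω' ⊆ Ω ∪ B ∧ RQ Ω' (1 - η) ∧
      TLow Ω' (((∫ z, w z) + ∫ z, f z) - η) := by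
    intro η hη
    have h1 := relaxed hΩ hUo subset_union_left hUfin hR hw hw'
      (Eventually.of_forall fun z => by linarith [hf0 z])
      (Eventually.of_forall fun z hz => by
        by_cases hzB : z ∈ B
        · have h2 : f z = max (1 / 2 - w z) 0 := by rw [hfdef, indicator_of_mem hzB]
          rcases le_total (1 / 2 - w z) 0 with h3 | h3
          · rw [max_eq_right h3] at h2
            exact absurd (by rw [h2, add_zero]) hz
          · rw [max_eq_left h3] at h2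
            rw [h2]; linarith
        · have h2 : f z = 0 := by rw [hfdef, indicator_of_notMem hzB]
          exact absurd (by rw [h2, add_zero]) hz)
      (fun Φ H hΦ hΦ0 => cond_S hΩ hfin hw hUo hUfin hf hΦ hΦ0) hη
    rwa [integral_add hwi hfi] at h1
  have hbound := noBetter_relaxed hq (by linarith) (by positivity) hUfin hNB hrel
  -- the measure of `B \ Ω`
  have hvolU : (volume (Ω ∪ B)).toReal = (volume Ω).toReal + (volume (B \ Ω)).toReal := by
    rw [← union_sdiff_self, measure_union disjoint_sdiff_right (hB.measurableSet.diff hΩ.measurableSet),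
      ENNReal.toReal_add hfin.ne ((measure_mono sdiff_subset).trans_lt hBfin).ne]
  rw [hvolU] at hbound
  have hmB : (volume (B \ Ω)).toReal ≤ 1 / CP := by
    have h1 : volume (B \ Ω) ≤ ENNReal.ofReal (1 / CP) := (measure_mono sdiff_subset).trans hBm
    have h2 := ENNReal.toReal_mono ENNReal.ofReal_ne_top h1
    rwa [ENNReal.toReal_ofReal (by positivity)] at h2
  have hf2 : (volume (B \ Ω)).toReal / 4 ≤ ∫ z, f z ^ 2 := by
    have hf2i : Integrable (fun z => f z ^ 2) volume := hf.1.integrable_sq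
    have h1 : ∫ z in B \ Ω, (1 / 4 : ℝ) = (volume (B \ Ω)).toReal / 4 := by
      rw [setIntegral_const, Measure.real, smul_eq_mul]; ring
    rw [← h1]
    have h2 : ∫ z in B \ Ω, f z ^ 2 ≤ ∫ z, f z ^ 2 :=
      setIntegral_le_integral hf2i (Eventually.of_forall fun z => sq_nonneg _)
    refine le_trans (le_of_eq ?_) h2
    apply setIntegral_congr_ae (hB.measurableSet.diff hΩ.measurableSet)
    filter_upwards [hw.1.ae_zero hΩ] with z hz hzB
    have h3 := (hz hzB.2).1
    rw [hfdef, indicator_of_mem hzB.1, h3]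
    norm_num
  have hF2 : ∫ z, ‖F z‖ ^ 2 ≤ (1 / (40 * CN)) ^ 2 := by
    refine le_trans ?_ hBe
    have hW2 : Integrable (fun z => ‖W z‖ ^ 2) volume :=
      (memLp_two_iff_integrable_sq_norm hw.1.2.1).1 hw.1.2
    rw [← integral_indicator hB.measurableSet]
    apply integral_mono_ae ((memLp_two_iff_integrable_sq_norm hf.2.1).1 hf.2)
      (hW2.indicator hB.measurableSet)
    filter_upwards with z
    by_cases hz : z ∈ B ∩ {z | w z < 1 / 2}
    · rw [hFdef, indicator_of_mem hz, indicator_of_mem hz.1, norm_neg]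
    · rw [hFdef, indicator_of_notMem hz]
      simp only [norm_zero, ne_eq, OfNat.ofNat_ne_zero, not_false_eq_true, zero_pow]
      exact indicator_nonneg (fun _ _ => by positivity) z
  have hnash := hN f F (hf.mono (subset_univ _)) hfi
  have habs : ∫ z, |f z| = ∫ z, f z := by
    congr 1
    ext z
    exact abs_of_nonneg (hf0 z)
  rw [habs] at hnash
  have hsq : Real.sqrt (∫ z, ‖F z‖ ^ 2) ≤ 1 / (40 * CN) := by
    rw [Real.sqrt_le_left (by positivity)]
    exact hF2
  have h10 : 10 * (volume (B \ Ω)).toReal ≤ ∫ z, f z := by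
    have h1 : CN * (∫ z, f z) * Real.sqrt (∫ z, ‖F z‖ ^ 2) ≤ CN * (∫ z, f z) * (1 / (40 * CN)) :=
      mul_le_mul_of_nonneg_left hsq (by positivity)
    have h2 : CN * (∫ z, f z) * (1 / (40 * CN)) = (∫ z, f z) / 40 := by
      field_simp
    linarith
  exact real_ineq hq hq2 hApos hT hTA ENNReal.toReal_nonneg (hmB.trans hA) hfpos h10 hbound

end Pool.Agent.H41.Ev
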