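import Pool.Agent.H41.Ev.LatB
import Pool.Agent.H41.Ev.Tors
import Pool.Agent.H2.Ev.Square

/-!
# M8 of MP_898b17_an, piece D1 + D2
-/

open MeasureTheory Set Metric Filter Topology ContDiff
open scoped ENNReal NNReal RealInnerProductSpace

namespace Pool.Agent.H41.Ev

open Pool.Agent.H2.Ev

namespace M8

theorem average_Sq {w : ℂ → ℝ} {p : ℂ} {ρ : ℝ} (hρ : 0 < ρ) :
    (⨍ x in Sq (4 * ρ) p, w x) * (64 * ρ ^ 2) = ∫ x in Sq (4 * ρ) p, w x := by
  have hvol : volume.real (Sq (4 * ρ) p) = 64 * ρ ^ 2 := by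
    rw [volume_real_Sq (by positivity)]; ring
  rw [setAverage_eq, hvol, smul_eq_mul]
  field_simp

/-- oscillation on a square of small energy -/
theorem osc {C : ℝ} (hC : 0 < C)
    (hP : ∀ (u : ℂ → ℝ) (G : ℂ → ℂ), H10 univ u G → ∀ (p : ℂ) (t : ℝ), 0 < t →
      ∫ z in Sq t p, (u z - ⨍ x in Sq t p, u x) ^ 2 ≤ C * t ^ 2 * ∫ z in Sq t p, ‖G z‖ ^ 2)
    {w : ℂ → ℝ} {W : ℂ → ℂ} (hw : H10 univ w W) (p : ℂ) {ρ e : ℝ} (hρ : 0 < ρ)
    (hE : ∫ z in Sq (4 * ρ) p, ‖W z‖ ^ 2 ≤ e) :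
    ∫ z in Sq (4 * ρ) p, (w z - ⨍ x in Sq (4 * ρ) p, w x) ^ 2 ≤ 16 * C * e * ρ ^ 2 := by
  have h1 := hP w W hw p (4 * ρ) (by positivity)
  have h2 := mul_le_mul_of_nonneg_left hE (by positivity : 0 ≤ C * (4 * ρ) ^ 2)
  calc _ ≤ _ := h1
    _ ≤ _ := h2
    _ = _ := by ring

theorem integrable_osc {w : ℂ → ℝ} {W : ℂ → ℂ} (hw : H10 univ w W) (p : ℂ) (t m : ℝ) :
    IntegrableOn (fun z => (w z - m) ^ 2) (Sq t p) volume := by
  have : IsFiniteMeasure (volume.restrict (Sq t p)) := ⟨by simpa using volume_Sq_lt_top t p⟩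
  have mw : MemLp (fun z => w z - m) 2 (volume.restrict (Sq t p)) :=
    (hw.1.mono_measure Measure.restrict_le_self).sub (memLp_const _)
  have := integrable_sq_norm mw
  simp only [Real.norm_eq_abs, sq_abs] at this
  exact this

/-- the function `1_Ω - w` -/
theorem torsion_data {Ω : Set ℂ} {w : ℂ → ℝ} {W : ℂ → ℂ} (hΩ : IsOpen Ω) (hfin : volume Ω < ⊤)
    (hR : RQ Ω 1) (hw : IsTorsion Ω w W) : 0 ≤ ∫ z, w z ∧ ∃ g : ℂ → ℝ, (∀ z ∈ Ω, g z = 1 - w z) ∧
      Integrable (fun z => g z ^ 2) volume ∧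
      ∫ z, g z ^ 2 ≤ (volume Ω).toReal - ∫ z, w z ∧
      ∀ᵐ z, z ∉ Ω → w z = 0 ∧ g z = 0 := by
  set T := ∫ z, w z with hT
  have hTE : ∫ z, ‖W z‖ ^ 2 = T := hw.energy hΩ hfin
  have hT0 : 0 ≤ T := by rw [← hTE]; exact integral_nonneg fun z => by positivity
  have hw2 : ∫ z, w z ^ 2 ≤ T := by
    have := hR.all hw.1
    rw [one_mul, hTE] at this
    exact this
  have m1 : MemLp (Ω.indicator fun _ => (1 : ℝ)) 2 volume := memLp_indicator_one hΩ hfin
  have mg : MemLp (fun z => Ω.indicator (fun _ => (1 : ℝ)) z - w z) 2 volume := m1.sub hw.1.1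
  have ig : Integrable (fun z => (Ω.indicator (fun _ => (1 : ℝ)) z - w z) ^ 2) volume := by
    simpa using integrable_sq_norm mg
  have iw : Integrable w volume := hw.1.integrable hΩ hfin
  have iw2 : Integrable (fun z => w z ^ 2) volume := by simpa using integrable_sq_norm hw.1.1
  have hz := hw.1.ae_zero hΩ
  have i1 : Integrable (Ω.indicator fun _ => (1 : ℝ)) volume :=
    (integrable_indicator_iff hΩ.measurableSet).2 (integrableOn_const hfin.ne)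
  refine ⟨hT0, fun z => Ω.indicator (fun _ => (1 : ℝ)) z - w z, ?_, ig, ?_, ?_⟩
  · intro z hz
    simp only [indicator_of_mem hz]
  · have e : ∀ᵐ z, (Ω.indicator (fun _ => (1 : ℝ)) z - w z) ^ 2 =
        Ω.indicator (fun _ => (1 : ℝ)) z - 2 * w z + w z ^ 2 := by
      filter_upwards [hz] with z hz
      by_cases h : z ∈ Ω
      · simp only [indicator_of_mem h]; ring
      · simp only [indicator_of_notMem h, (hz h).1]; ring
    have i2 : Integrable (fun z => Ω.indicator (fun _ => (1 : ℝ)) z - 2 * w z) volume :=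
      i1.sub (iw.const_mul 2)
    rw [integral_congr_ae e, integral_add i2 iw2,
      integral_sub i1 (iw.const_mul 2), integral_const_mul, integral_indicator hΩ.measurableSet,
      setIntegral_const, smul_eq_mul, mul_one]
    have : volume.real Ω = (volume Ω).toReal := rfl
    rw [this, ← hT]
    linarith
  · filter_upwards [hz] with z hz h
    refine ⟨(hz h).1, ?_⟩
    simp only [indicator_of_notMem h, (hz h).1, sub_zero]

end M8

open M8

/-- (D2) Neighbours of a high square which are not high are bad. -/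
theorem adjacent : ∃ e₀ : ℝ, 0 < e₀ ∧ ∀ e₁ : ℝ, 0 < e₁ → e₁ ≤ e₀ →
    ∀ (w : ℂ → ℝ) (W : ℂ → ℂ), H10 univ w W → ∀ ρ : ℝ, 0 < ρ → ∀ a b : ℤ × ℤ,
      |a.1 - b.1| ≤ 1 → |a.2 - b.2| ≤ 1 →
      ∫ z in Sq (4 * ρ) (ctr ρ a), ‖W z‖ ^ 2 ≤ e₁ →
      7 / 10 * (64 * ρ ^ 2) ≤ ∫ z in Sq (4 * ρ) (ctr ρ a), w z →
      ∫ z in Sq (4 * ρ) (ctr ρ b), ‖W z‖ ^ 2 ≤ e₁ →
      1 / 2 * (64 * ρ ^ 2) ≤ ∫ z in Sq (4 * ρ) (ctr ρ b), w z := by
  obtain ⟨C, hC, hP⟩ := square_poincare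
  refine ⟨1 / (64 * C), by positivity, ?_⟩
  intro e₁ he₁ he w W hw ρ hρ a b h1 h2 hEa hma hEb
  have oa := osc hC hP hw (ctr ρ a) hρ hEa
  have ob := osc hC hP hw (ctr ρ b) hρ hEb
  have hρ2 : 0 < ρ ^ 2 := by positivity
  have he2 : 16 * C * e₁ * ρ ^ 2 ≤ 1 / 4 * ρ ^ 2 := by
    apply mul_le_mul_of_nonneg_right _ hρ2.le
    have := mul_le_mul_of_nonneg_left he (by positivity : 0 ≤ 16 * C)
    refine this.trans (le_of_eq ?_)
    field_simp
    norm_num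
  have aa := average_Sq (w := w) (p := ctr ρ a) hρ
  have ab := average_Sq (w := w) (p := ctr ρ b) hρ
  set ma := ⨍ x in Sq (4 * ρ) (ctr ρ a), w x with hmad
  set mb := ⨍ x in Sq (4 * ρ) (ctr ρ b), w x with hmbd
  rw [← aa] at hma
  rw [← ab]
  have hma' : 7 / 10 ≤ ma := by
    have : 0 < 64 * ρ ^ 2 := by positivity
    exact le_of_mul_le_mul_right hma this
  -- the common square
  set Q := Sq (3 * ρ) (ctr ρ a) with hQ
  have hQa : Q ⊆ Sq (4 * ρ) (ctr ρ a) := fun z hz =>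
    ⟨hz.1.trans (by linarith), hz.2.trans (by linarith)⟩
  have hQb : Q ⊆ Sq (4 * ρ) (ctr ρ b) := by
    intro z hz
    have k1 : |(ctr ρ a).re - (ctr ρ b).re| ≤ ρ := by
      have e : (ctr ρ a).re - (ctr ρ b).re = ((a.1 - b.1 : ℤ) : ℝ) * ρ := by
        simp only [ctr]; push_cast; ring
      rw [e, abs_mul, abs_of_pos hρ]
      have : |((a.1 - b.1 : ℤ) : ℝ)| ≤ 1 := by exact_mod_cast h1
      nlinarith
    have k2 : |(ctr ρ a).im - (ctr ρ b).im| ≤ ρ := by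
      have e : (ctr ρ a).im - (ctr ρ b).im = ((a.2 - b.2 : ℤ) : ℝ) * ρ := by
        simp only [ctr]; push_cast; ring
      rw [e, abs_mul, abs_of_pos hρ]
      have : |((a.2 - b.2 : ℤ) : ℝ)| ≤ 1 := by exact_mod_cast h2
      nlinarith
    constructor
    · have := abs_add_le (z.re - (ctr ρ a).re) ((ctr ρ a).re - (ctr ρ b).re)
      rw [sub_add_sub_cancel] at this
      have := hz.1
      linarith
    · have := abs_add_le (z.im - (ctr ρ a).im) ((ctr ρ a).im - (ctr ρ b).im)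
      rw [sub_add_sub_cancel] at this
      have := hz.2
      linarith
  have ia := integrable_osc hw (ctr ρ a) (4 * ρ) ma
  have ib := integrable_osc hw (ctr ρ b) (4 * ρ) mb
  have ja : ∫ z in Q, (w z - ma) ^ 2 ≤ 1 / 4 * ρ ^ 2 := by
    refine le_trans (setIntegral_mono_set ia (Eventually.of_forall fun z => sq_nonneg _)
      (LE.le.eventuallyLE hQa)) (oa.trans he2)
  have jb : ∫ z in Q, (w z - mb) ^ 2 ≤ 1 / 4 * ρ ^ 2 := by
    refine le_trans (setIntegral_mono_set ib (Eventually.of_forall fun z => sq_nonneg _)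
      (LE.le.eventuallyLE hQb)) (ob.trans he2)
  have hQm : MeasurableSet Q := measurableSet_Sq _ _
  have hQv : volume.real Q = 36 * ρ ^ 2 := by
    rw [hQ, volume_real_Sq (by positivity)]; ring
  have hQf : volume Q ≠ ⊤ := (volume_Sq_lt_top _ _).ne
  have j1 : ∫ z in Q, (ma - mb) ^ 2 ≤ ∫ z in Q, (2 * (w z - ma) ^ 2 + 2 * (w z - mb) ^ 2) := by
    apply setIntegral_mono_on
    · exact integrableOn_const hQf
    · exact ((ia.mono_set hQa).const_mul 2).add ((ib.mono_set hQb).const_mul 2)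
    · exact hQm
    · intro z _
      nlinarith [sq_nonneg ((w z - ma) + (w z - mb))]
  rw [setIntegral_const, hQv, smul_eq_mul,
    integral_add ((ia.mono_set hQa).const_mul 2) ((ib.mono_set hQb).const_mul 2),
    integral_const_mul, integral_const_mul] at j1
  have j2 : 36 * (ma - mb) ^ 2 ≤ 1 := by
    have : ρ ^ 2 * (36 * (ma - mb) ^ 2) ≤ ρ ^ 2 * 1 := by linarith
    exact le_of_mul_le_mul_left this hρ2
  have j3 : 1 / 2 ≤ mb := by nlinarith
  exact mul_le_mul_of_nonneg_right j3 (by positivity)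

/-- (D1) Number of bad squares. -/
theorem bad_card : ∃ e₀ : ℝ, 0 < e₀ ∧ ∀ e₁ : ℝ, 0 < e₁ → e₁ ≤ e₀ →
    ∀ (Ω : Set ℂ) (w : ℂ → ℝ) (W : ℂ → ℂ), IsOpen Ω → volume Ω < ⊤ → RQ Ω 1 →
      IsTorsion Ω w W → ∀ ρ : ℝ, 0 < ρ → ∀ F : Finset (ℤ × ℤ),
        (∀ b ∈ F, e₁ < ∫ z in Sq (4 * ρ) (ctr ρ b), ‖W z‖ ^ 2 ∨
          (1 / 2 * (64 * ρ ^ 2) ≤ ∫ z in Sq (4 * ρ) (ctr ρ b), w z ∧
            ∫ z in Sq (4 * ρ) (ctr ρ b), w z < 7 / 10 * (64 * ρ ^ 2))) →
        (F.card : ℝ) ≤ 81 / e₁ * (∫ z, w z) + 64 / ρ ^ 2 * ((volume Ω).toReal - ∫ z, w z) := by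
  obtain ⟨C, hC, hP⟩ := square_poincare
  refine ⟨1 / (16 * C), by positivity, ?_⟩
  intro e₁ he₁ he Ω w W hΩ hfin hR hw ρ hρ F hF
  have hρ2 : 0 < ρ ^ 2 := by positivity
  have hwU : H10 univ w W := hw.1.mono (subset_univ _)
  have he2 : 16 * C * e₁ * ρ ^ 2 ≤ 1 * ρ ^ 2 := by
    apply mul_le_mul_of_nonneg_right _ hρ2.le
    have := mul_le_mul_of_nonneg_left he (by positivity : 0 ≤ 16 * C)
    refine this.trans (le_of_eq ?_)
    field_simp
  obtain ⟨hT0, g, hgd, ig, hg2, hz⟩ := torsion_data hΩ hfin hR hw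
  set T := ∫ z, w z with hT
  have hTE : ∫ z, ‖W z‖ ^ 2 = T := hw.energy hΩ hfin
  have iW : Integrable (fun z => ‖W z‖ ^ 2) volume := integrable_sq_norm hw.1.2
  -- each square
  have key : ∀ b ∈ F, (1 : ℝ) ≤ 1 / e₁ * (∫ z in Sq (4 * ρ) (ctr ρ b), ‖W z‖ ^ 2) +
      64 / (81 * ρ ^ 2) * ∫ z in Sq (4 * ρ) (ctr ρ b), g z ^ 2 := by
    intro b hb
    have hE0 : 0 ≤ ∫ z in Sq (4 * ρ) (ctr ρ b), ‖W z‖ ^ 2 :=
      integral_nonneg fun z => by positivity
    have hg0 : 0 ≤ ∫ z in Sq (4 * ρ) (ctr ρ b), g z ^ 2 := integral_nonneg fun z => sq_nonneg _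
    rcases lt_or_ge e₁ (∫ z in Sq (4 * ρ) (ctr ρ b), ‖W z‖ ^ 2) with h1 | h1
    · have h2 : 1 ≤ 1 / e₁ * (∫ z in Sq (4 * ρ) (ctr ρ b), ‖W z‖ ^ 2) := by
        rw [one_div, ← div_eq_inv_mul, le_div_iff₀ he₁]
        linarith
      have h3 : 0 ≤ 64 / (81 * ρ ^ 2) * ∫ z in Sq (4 * ρ) (ctr ρ b), g z ^ 2 := by positivity
      linarith
    · have h2 := (hF b hb).resolve_left (not_lt.2 h1)
      have av := average_Sq (w := w) (p := ctr ρ b) hρ
      have ob := (osc hC hP hwU (ctr ρ b) hρ h1).trans he2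
      set m := ⨍ x in Sq (4 * ρ) (ctr ρ b), w x with hmd
      rw [← av] at h2
      have h64 : 0 < 64 * ρ ^ 2 := by positivity
      have hm1 : 1 / 2 ≤ m := le_of_mul_le_mul_right h2.1 h64
      have hm2 : m < 7 / 10 := lt_of_mul_lt_mul_right h2.2 h64.le
      have io := integrable_osc hwU (ctr ρ b) (4 * ρ) m
      have hvol : volume.real (Sq (4 * ρ) (ctr ρ b)) = 64 * ρ ^ 2 := by
        rw [volume_real_Sq (by positivity)]; ring
      have h3 : ∫ z in Sq (4 * ρ) (ctr ρ b), (1 / 25 : ℝ) ≤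
          ∫ z in Sq (4 * ρ) (ctr ρ b), (g z ^ 2 + (w z - m) ^ 2) := by
        apply integral_mono_ae
        · exact integrableOn_const (volume_Sq_lt_top _ _).ne
        · exact ig.integrableOn.add io
        · filter_upwards [ae_restrict_of_ae hz] with z hz
          by_cases h : z ∈ Ω
          · rw [hgd z h]
            nlinarith [sq_nonneg ((1 - w z) - (w z - m))]
          · rw [(hz h).1, (hz h).2]
            nlinarith
      rw [setIntegral_const, hvol, smul_eq_mul, integral_add ig.integrableOn io] at h3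
      have h4 : 81 / 64 * ρ ^ 2 ≤ ∫ z in Sq (4 * ρ) (ctr ρ b), g z ^ 2 := by linarith
      have h5 : 1 ≤ 64 / (81 * ρ ^ 2) * ∫ z in Sq (4 * ρ) (ctr ρ b), g z ^ 2 := by
        have := mul_le_mul_of_nonneg_left h4 (by positivity : 0 ≤ 64 / (81 * ρ ^ 2))
        have e : 64 / (81 * ρ ^ 2) * (81 / 64 * ρ ^ 2) = 1 := by field_simp
        linarith
      have h6 : 0 ≤ 1 / e₁ * (∫ z in Sq (4 * ρ) (ctr ρ b), ‖W z‖ ^ 2) := by positivity
      linarith
  have hsum : (F.card : ℝ) ≤ 1 / e₁ * (∑ b ∈ F, ∫ z in Sq (4 * ρ) (ctr ρ b), ‖W z‖ ^ 2) +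
      64 / (81 * ρ ^ 2) * ∑ b ∈ F, ∫ z in Sq (4 * ρ) (ctr ρ b), g z ^ 2 := by
    rw [Finset.mul_sum, Finset.mul_sum, ← Finset.sum_add_distrib]
    have := Finset.sum_le_sum key
    simpa using this
  have s1 := sum_Sq_le hρ F iW (Eventually.of_forall fun z => by positivity)
  have s2 := sum_Sq_le hρ F ig (Eventually.of_forall fun z => sq_nonneg _)
  rw [hTE] at s1
  have s3 := mul_le_mul_of_nonneg_left s1 (by positivity : 0 ≤ 1 / e₁)
  have s4 := mul_le_mul_of_nonneg_left (s2.trans (mul_le_mul_of_nonneg_left hg2 (by norm_num)))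
    (by positivity : 0 ≤ 64 / (81 * ρ ^ 2))
  have e1 : 1 / e₁ * (81 * T) = 81 / e₁ * T := by ring
  have e2 : 64 / (81 * ρ ^ 2) * (81 * ((volume Ω).toReal - T)) =
      64 / ρ ^ 2 * ((volume Ω).toReal - T) := by field_simp
  rw [e1] at s3
  rw [e2] at s4
  linarith

end Pool.Agent.H41.Ev
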