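import Pool.Agent.H38.Ev.Lat

/-!
# M8 of MP_898b17_an, piece D3
-/

open MeasureTheory Set Metric Filter Topology ContDiff
open scoped ENNReal NNReal RealInnerProductSpace

namespace Pool.Agent.H41.Ev

open Pool.Agent.H2.Ev M8

namespace M8

theorem hsq_disjoint {ρ : ℝ} {a b : ℤ × ℤ} (h : a ≠ b) : Disjoint (hsq ρ a) (hsq ρ b) := by
  rw [Set.disjoint_left]
  intro z h1 h2
  exact h (h1.symm.trans h2)

end M8

/-- (D3) Area of the part of `Ω` in squares which are not high. -/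
theorem area_le : ∃ C : ℝ, 0 < C ∧ ∀ e₁ : ℝ, 0 < e₁ →
    ∀ (Ω : Set ℂ) (w : ℂ → ℝ) (W : ℂ → ℂ), IsOpen Ω → volume Ω < ⊤ → RQ Ω 1 →
      IsTorsion Ω w W → ∀ ρ : ℝ, 0 < ρ → ∀ H : Set (ℤ × ℤ),
        (∀ a, a ∉ H → e₁ < ∫ z in Sq (4 * ρ) (ctr ρ a), ‖W z‖ ^ 2 ∨
            ∫ z in Sq (4 * ρ) (ctr ρ a), w z < 7 / 10 * (64 * ρ ^ 2)) →
        (volume (Ω ∩ {z | cellOf ρ z ∉ H})).toReal ≤
          23 * ((volume Ω).toReal - ∫ z, w z) + C * (1 + 1 / e₁) * ρ ^ 2 * ∫ z, w z := by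
  classical
  obtain ⟨C, hC, hP⟩ := square_poincare
  refine ⟨81 * (1 + 356 * C), by positivity, ?_⟩
  intro e₁ he₁ Ω w W hΩ hfin hR hw ρ hρ H hH
  have hρ2 : 0 < ρ ^ 2 := by positivity
  have hwU : H10 univ w W := hw.1.mono (subset_univ _)
  obtain ⟨hT0, g, hgd, ig, hg2, hz⟩ := torsion_data hΩ hfin hR hw
  set T := ∫ z, w z with hT
  have hTE : ∫ z, ‖W z‖ ^ 2 = T := hw.energy hΩ hfin
  have iW : Integrable (fun z => ‖W z‖ ^ 2) volume := integrable_sq_norm hw.1.2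
  -- one square
  have key : ∀ a, a ∉ H → (volume (Ω ∩ hsq ρ a)).toReal ≤
      200 / 9 * (∫ z in hsq ρ a, g z ^ 2) +
        (1 / e₁ + 356 * C) * ρ ^ 2 * ∫ z in Sq (4 * ρ) (ctr ρ a), ‖W z‖ ^ 2 := by
    intro a ha
    have hE0 : 0 ≤ ∫ z in Sq (4 * ρ) (ctr ρ a), ‖W z‖ ^ 2 :=
      integral_nonneg fun z => by positivity
    set E := ∫ z in Sq (4 * ρ) (ctr ρ a), ‖W z‖ ^ 2 with hEd
    have hg0 : 0 ≤ ∫ z in hsq ρ a, g z ^ 2 := integral_nonneg fun z => sq_nonneg _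
    have hvol : volume (hsq ρ a) = ENNReal.ofReal (ρ ^ 2) := volume_hsq hρ a
    have hvf : volume (Ω ∩ hsq ρ a) ≠ ⊤ :=
      ((measure_mono inter_subset_left).trans_lt hfin).ne
    have hv : (volume (Ω ∩ hsq ρ a)).toReal ≤ ρ ^ 2 := by
      have h1 : volume (Ω ∩ hsq ρ a) ≤ ENNReal.ofReal (ρ ^ 2) :=
        hvol ▸ measure_mono inter_subset_right
      exact ENNReal.toReal_le_of_le_ofReal hρ2.le h1
    rcases hH a ha with h1 | h1
    · have h2 : 1 ≤ 1 / e₁ * E := by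
        rw [one_div, ← div_eq_inv_mul, le_div_iff₀ he₁]
        linarith
      have h3 := mul_le_mul_of_nonneg_left h2 hρ2.le
      have h4 : 0 ≤ 356 * C * ρ ^ 2 * E := by positivity
      have e : (1 / e₁ + 356 * C) * ρ ^ 2 * E = ρ ^ 2 * (1 / e₁ * E) + 356 * C * ρ ^ 2 * E := by
        ring
      rw [e]
      linarith
    · have av := average_Sq (w := w) (p := ctr ρ a) hρ
      have oa := osc hC hP hwU (ctr ρ a) (e := E) hρ le_rfl
      set m := ⨍ x in Sq (4 * ρ) (ctr ρ a), w x with hmd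
      rw [← av] at h1
      have h64 : 0 < 64 * ρ ^ 2 := by positivity
      have hm2 : m < 7 / 10 := lt_of_mul_lt_mul_right h1 h64.le
      have io := integrable_osc hwU (ctr ρ a) (4 * ρ) m
      have hsub : hsq ρ a ⊆ Sq (4 * ρ) (ctr ρ a) := by
        refine (hsq_subset hρ a).trans ?_
        intro z hz
        exact ⟨hz.1.trans (by linarith), hz.2.trans (by linarith)⟩
      have hsub' : Ω ∩ hsq ρ a ⊆ Sq (4 * ρ) (ctr ρ a) := inter_subset_right.trans hsub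
      have hms : MeasurableSet (Ω ∩ hsq ρ a) := hΩ.measurableSet.inter (measurableSet_hsq hρ a)
      have h3 : ∫ z in Ω ∩ hsq ρ a, (9 / 200 : ℝ) ≤
          ∫ z in Ω ∩ hsq ρ a, (g z ^ 2 + (w z - m) ^ 2) := by
        apply setIntegral_mono_on
        · exact integrableOn_const hvf
        · exact ig.integrableOn.add (io.mono_set hsub')
        · exact hms
        · intro z hz
          rw [hgd z hz.1]
          nlinarith [sq_nonneg ((1 - w z) - (w z - m))]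
      rw [setIntegral_const, smul_eq_mul,
        integral_add ig.integrableOn (io.mono_set hsub')] at h3
      have h4 : ∫ z in Ω ∩ hsq ρ a, g z ^ 2 ≤ ∫ z in hsq ρ a, g z ^ 2 :=
        setIntegral_mono_set ig.integrableOn (Eventually.of_forall fun z => sq_nonneg _)
          (LE.le.eventuallyLE inter_subset_right)
      have h5 : ∫ z in Ω ∩ hsq ρ a, (w z - m) ^ 2 ≤ 16 * C * E * ρ ^ 2 :=
        (setIntegral_mono_set io (Eventually.of_forall fun z => sq_nonneg _)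
          (LE.le.eventuallyLE hsub')).trans oa
      have hreal : volume.real (Ω ∩ hsq ρ a) = (volume (Ω ∩ hsq ρ a)).toReal := rfl
      rw [hreal] at h3
      have h6 : 0 ≤ 1 / e₁ * ρ ^ 2 * E := by positivity
      have h7 : 0 ≤ C * ρ ^ 2 * E := by positivity
      have e : (1 / e₁ + 356 * C) * ρ ^ 2 * E = 1 / e₁ * ρ ^ 2 * E + 356 * (C * ρ ^ 2 * E) := by
        ring
      have e2 : 16 * C * E * ρ ^ 2 = 16 * (C * ρ ^ 2 * E) := by ring
      rw [e]
      rw [e2] at h5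
      linarith
  -- finite sums
  set X := 23 * ((volume Ω).toReal - T) + 81 * (1 + 356 * C) * (1 + 1 / e₁) * ρ ^ 2 * T with hX
  have hg20 : 0 ≤ ∫ z, g z ^ 2 := integral_nonneg fun z => sq_nonneg _
  have hX0 : 0 ≤ X := by
    have h1 : 0 ≤ 81 * (1 + 356 * C) * (1 + 1 / e₁) * ρ ^ 2 * T := by positivity
    linarith
  have hfinite : ∀ F : Finset (ℤ × ℤ), (∀ a ∈ F, a ∉ H) →
      ∑ a ∈ F, (volume (Ω ∩ hsq ρ a)).toReal ≤ X := by
    intro F hF
    have h1 : ∑ a ∈ F, (volume (Ω ∩ hsq ρ a)).toReal ≤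
        ∑ a ∈ F, (200 / 9 * (∫ z in hsq ρ a, g z ^ 2) +
        (1 / e₁ + 356 * C) * ρ ^ 2 * ∫ z in Sq (4 * ρ) (ctr ρ a), ‖W z‖ ^ 2) :=
      Finset.sum_le_sum fun a ha => key a (hF a ha)
    rw [Finset.sum_add_distrib, ← Finset.mul_sum, ← Finset.mul_sum] at h1
    have h2 : ∑ a ∈ F, ∫ z in hsq ρ a, g z ^ 2 ≤ ∫ z, g z ^ 2 := by
      rw [← integral_biUnion_finset F (fun a _ => measurableSet_hsq hρ a)
        (fun a _ b _ hab => hsq_disjoint hab) fun a _ => ig.integrableOn]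
      exact setIntegral_le_integral ig (Eventually.of_forall fun z => sq_nonneg _)
    have h3 := sum_Sq_le hρ F iW (Eventually.of_forall fun z => by positivity)
    rw [hTE] at h3
    have h4 := mul_le_mul_of_nonneg_left h3 (by positivity : 0 ≤ (1 / e₁ + 356 * C) * ρ ^ 2)
    have h5 : (1 / e₁ + 356 * C) * ρ ^ 2 * (81 * T) ≤
        81 * (1 + 356 * C) * (1 + 1 / e₁) * ρ ^ 2 * T := by
      have e : 81 * (1 + 356 * C) * (1 + 1 / e₁) * ρ ^ 2 * T =
          (1 / e₁ + 356 * C) * ρ ^ 2 * (81 * T) + (1 + 356 * C * (1 / e₁)) * ρ ^ 2 * (81 * T) := by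
        ring
      have h6 : 0 ≤ (1 + 356 * C * (1 / e₁)) * ρ ^ 2 * (81 * T) := by positivity
      linarith
    linarith
  -- the countable union
  have hle : volume (Ω ∩ {z | cellOf ρ z ∉ H}) ≤
      ∑' a : ℤ × ℤ, (if a ∈ H then 0 else volume (Ω ∩ hsq ρ a)) := by
    have h1 : Ω ∩ {z | cellOf ρ z ∉ H} ⊆
        ⋃ a : ℤ × ℤ, (if a ∈ H then ∅ else Ω ∩ hsq ρ a) := by
      intro z hz
      rw [mem_iUnion]
      refine ⟨cellOf ρ z, ?_⟩
      have h2 : cellOf ρ z ∉ H := hz.2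
      rw [if_neg h2]
      exact ⟨hz.1, rfl⟩
    refine (measure_mono h1).trans ((measure_iUnion_le _).trans (ENNReal.tsum_le_tsum fun a => ?_))
    split_ifs
    · simp
    · exact le_rfl
  have hle2 : ∑' a : ℤ × ℤ, (if a ∈ H then 0 else volume (Ω ∩ hsq ρ a)) ≤ ENNReal.ofReal X := by
    rw [ENNReal.tsum_eq_iSup_sum]
    apply iSup_le
    intro F
    have h1 : ∑ a ∈ F, (if a ∈ H then 0 else volume (Ω ∩ hsq ρ a)) =
        ∑ a ∈ F.filter (fun a => a ∉ H), volume (Ω ∩ hsq ρ a) := by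
      rw [Finset.sum_filter]
      apply Finset.sum_congr rfl
      intro a _
      by_cases h : a ∈ H <;> simp [h]
    rw [h1]
    have hne : ∀ a ∈ F.filter (fun a => a ∉ H), volume (Ω ∩ hsq ρ a) ≠ ⊤ := fun a _ =>
      ((measure_mono inter_subset_left).trans_lt hfin).ne
    rw [← ENNReal.ofReal_toReal (ENNReal.sum_ne_top.2 hne), ENNReal.toReal_sum hne]
    apply ENNReal.ofReal_le_ofReal
    exact hfinite _ fun a ha => (Finset.mem_filter.1 ha).2
  exact ENNReal.toReal_le_of_le_ofReal hX0 (hle.trans hle2)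

end Pool.Agent.H41.Ev
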