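import Pool.Agent.H41.Ev.Mul

/-!
# M7 of MP_898b17_an, part 3: one-dimensional estimate, Tonelli on `ℂ`, good lines
-/

open MeasureTheory Set Metric Filter Topology ContDiff
open scoped ENNReal RealInnerProductSpace

namespace Pool.Agent.H41.Ev

namespace M7

/-- Cauchy-Schwarz for an interval integral. -/
theorem sq_intervalIntegral_le {f : ℝ → ℝ} (hf : Continuous f) {s t : ℝ} (hst : s ≤ t) :
    (∫ x in s..t, f x) ^ 2 ≤ (t - s) * ∫ x in s..t, f x ^ 2 := by
  rcases hst.eq_or_lt with h | h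
  · subst h; simp
  · have hts : 0 < t - s := sub_pos.2 h
    set m := (∫ x in s..t, f x) / (t - s) with hm
    have h1 : 0 ≤ ∫ x in s..t, (f x - m) ^ 2 :=
      intervalIntegral.integral_nonneg hst fun x _ => sq_nonneg _
    have h2 : ∫ x in s..t, (f x - m) ^ 2 =
        (∫ x in s..t, f x ^ 2) - 2 * m * (∫ x in s..t, f x) + (t - s) * m ^ 2 := by
      have e : (fun x => (f x - m) ^ 2) = fun x => (f x ^ 2 - 2 * m * f x) + m ^ 2 := by
        ext x; ring
      have i1 : IntervalIntegrable (fun x => f x ^ 2) volume s t :=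
        (hf.pow 2).intervalIntegrable _ _
      have i2 : IntervalIntegrable (fun x => 2 * m * f x) volume s t :=
        (continuous_const.mul hf).intervalIntegrable _ _
      have i3 : IntervalIntegrable (fun x => f x ^ 2 - 2 * m * f x) volume s t := i1.sub i2
      rw [e, intervalIntegral.integral_add i3 intervalIntegrable_const,
        intervalIntegral.integral_sub i1 i2, intervalIntegral.integral_const_mul,
        intervalIntegral.integral_const, smul_eq_mul]
    have h3 : m * (t - s) = ∫ x in s..t, f x := by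
      rw [hm]; field_simp
    rw [h2] at h1
    rw [← h3] at h1 ⊢
    nlinarith

/-- One-dimensional Sobolev inequality. -/
theorem sobolev_line {ψ ψ' : ℝ → ℝ} (hd : ∀ x, HasDerivAt ψ (ψ' x) x) (hc : Continuous ψ')
    {α β t : ℝ} (hαβ : α < β) (ht : t ∈ Icc α β) (a : ℝ) :
    (ψ t - a) ^ 2 ≤ 2 / (β - α) * (∫ x in α..β, (ψ x - a) ^ 2) +
      2 * (β - α) * ∫ x in α..β, ψ' x ^ 2 := by
  have hψ : Continuous ψ := continuous_iff_continuousAt.2 fun x => (hd x).continuousAt
  have hℓ : 0 < β - α := sub_pos.2 hαβ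
  set K := ∫ x in α..β, ψ' x ^ 2 with hK
  have hmono : ∀ s₁ s₂ : ℝ, α ≤ s₁ → s₁ ≤ s₂ → s₂ ≤ β → ∫ x in s₁..s₂, ψ' x ^ 2 ≤ K := by
    intro s₁ s₂ h1 h2 h3
    apply intervalIntegral.integral_mono_interval h1 h2 h3
    · exact Eventually.of_forall fun x => sq_nonneg _
    · exact (hc.pow 2).intervalIntegrable _ _
  have key : ∀ s ∈ Icc α β, (ψ t - ψ s) ^ 2 ≤ (β - α) * K := by
    intro s hs
    have hgen : ∀ s₁ s₂ : ℝ, α ≤ s₁ → s₁ ≤ s₂ → s₂ ≤ β → (ψ s₂ - ψ s₁) ^ 2 ≤ (β - α) * K := by
      intro s₁ s₂ h1 h2 h3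
      have h4 : ∫ x in s₁..s₂, ψ' x = ψ s₂ - ψ s₁ :=
        intervalIntegral.integral_eq_sub_of_hasDerivAt (fun x _ => hd x)
          (hc.intervalIntegrable _ _)
      rw [← h4]
      refine (sq_intervalIntegral_le hc h2).trans ?_
      apply mul_le_mul (by linarith) (hmono s₁ s₂ h1 h2 h3)
      · exact intervalIntegral.integral_nonneg h2 fun x _ => sq_nonneg _
      · exact hℓ.le
    rcases le_total s t with h | h
    · exact hgen s t hs.1 h ht.2
    · have := hgen t s ht.1 h hs.2
      calc (ψ t - ψ s) ^ 2 = (ψ s - ψ t) ^ 2 := by ring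
        _ ≤ _ := this
  have hpt : ∀ s ∈ Icc α β, (ψ t - a) ^ 2 ≤ 2 * (ψ s - a) ^ 2 + 2 * ((β - α) * K) := by
    intro s hs
    have := key s hs
    nlinarith [sq_nonneg ((ψ s - a) - (ψ t - ψ s))]
  have hint : ∫ s in α..β, (ψ t - a) ^ 2 ≤ ∫ s in α..β, (2 * (ψ s - a) ^ 2 + 2 * ((β - α) * K)) := by
    apply intervalIntegral.integral_mono_on hαβ.le intervalIntegrable_const
    · exact ((continuous_const.mul ((hψ.sub continuous_const).pow 2)).add
        continuous_const).intervalIntegrable _ _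
    · exact hpt
  have i1 : IntervalIntegrable (fun s => 2 * (ψ s - a) ^ 2) volume α β :=
    (continuous_const.mul ((hψ.sub continuous_const).pow 2)).intervalIntegrable _ _
  rw [intervalIntegral.integral_const, smul_eq_mul, intervalIntegral.integral_add i1
    intervalIntegrable_const, intervalIntegral.integral_const_mul,
    intervalIntegral.integral_const, smul_eq_mul] at hint
  have h5 : (ψ t - a) ^ 2 ≤ (2 * (∫ x in α..β, (ψ x - a) ^ 2) + (β - α) * (2 * ((β - α) * K))) /
      (β - α) := by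
    rw [le_div_iff₀ hℓ]
    linarith
  refine h5.trans (le_of_eq ?_)
  field_simp

/-- Tonelli on `ℂ`. -/
theorem lintegral_complex {F : ℂ → ℝ≥0∞} (hF : Measurable F) :
    ∫⁻ z, F z = ∫⁻ x : ℝ, ∫⁻ y : ℝ, F ⟨x, y⟩ := by
  rw [← (Complex.volume_preserving_equiv_real_prod.symm).lintegral_comp_emb
    Complex.measurableEquivRealProd.symm.measurableEmbedding, Measure.volume_eq_prod,
    lintegral_prod]
  · rfl
  · exact (hF.comp Complex.measurableEquivRealProd.symm.measurable).aemeasurable

theorem lintegral_complex' {F : ℂ → ℝ≥0∞} (hF : Measurable F) :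
    ∫⁻ z, F z = ∫⁻ y : ℝ, ∫⁻ x : ℝ, F ⟨x, y⟩ := by
  rw [← (Complex.volume_preserving_equiv_real_prod.symm).lintegral_comp_emb
    Complex.measurableEquivRealProd.symm.measurableEmbedding, Measure.volume_eq_prod,
    lintegral_prod_symm']
  · rfl
  · exact hF.comp Complex.measurableEquivRealProd.symm.measurable

end M7

end Pool.Agent.H41.Ev
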