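import Pool.Agent.H41.Ev.Tors

/-!
# M7 of MP_898b17_an, part 1: the subsolution inequality `-Δ w ≤ 1` on the plane, and
condition (S) of Theorem R.
-/

open MeasureTheory Set Metric Filter Topology ContDiff
open scoped ENNReal RealInnerProductSpace

namespace Pool.Agent.H41.Ev

namespace M7

variable {Ω U B : Set ℂ} {u v w : ℂ → ℝ} {G H W : ℂ → ℂ}

theorem integrable_inner_of_memLp {f g : ℂ → ℂ} (hf : MemLp f 2 volume) (hg : MemLp g 2 volume) :
    Integrable (fun z => ⟪f z, g z⟫) volume := by
  have h1 : Integrable (fun z => ‖f z‖ * ‖g z‖) volume := by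
    have := hf.norm.integrable_mul hg.norm
    exact this
  refine h1.mono (hf.1.inner hg.1) ?_
  filter_upwards with z
  rw [norm_mul, norm_norm, norm_norm]
  exact norm_inner_le_norm _ _

theorem memLp_smul_of_le_one {g : ℂ → ℝ} {f : ℂ → ℂ} (hg : AEStronglyMeasurable g volume)
    (hg1 : ∀ᵐ z, |g z| ≤ 1) (hf : MemLp f 2 volume) : MemLp (fun z => g z • f z) 2 volume := by
  refine hf.mono (hg.smul hf.1) ?_
  filter_upwards [hg1] with z hz
  rw [norm_smul, Real.norm_eq_abs]
  calc |g z| * ‖f z‖ ≤ 1 * ‖f z‖ := mul_le_mul_of_nonneg_right hz (norm_nonneg _)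
    _ = ‖f z‖ := one_mul _

/-- `-Δ w ≤ 1` on the whole plane, tested with bounded integrable nonnegative functions. -/
theorem sub_star (hΩ : IsOpen Ω) (hfin : volume Ω < ⊤) (hw : IsTorsion Ω w W)
    (hΨ : H10 univ v H) (h0 : ∀ᵐ z, 0 ≤ v z) {n : ℝ} (hn : ∀ᵐ z, v z ≤ n)
    (hint : Integrable v volume) : ∫ z, ⟪W z, H z⟫ ≤ ∫ z, v z := by
  classical
  have hw0 := hw.nonneg hΩ hfin
  have hvb : ∀ᵐ z, |v z| ≤ n := by
    filter_upwards [h0, hn] with z h1 h2
    rwa [abs_of_nonneg h1]
  have hWz := hw.1.grad_zero_of_eq 0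
  have step : ∀ k : ℕ, ∫ z, ⟪W z, (((k : ℝ) + 1) * min (w z) (1 / ((k : ℝ) + 1))) • H z⟫ ≤
      ∫ z, v z := by
    intro k
    have hk : (0 : ℝ) < (k : ℝ) + 1 := by positivity
    have ht : (0 : ℝ) ≤ 1 / ((k : ℝ) + 1) := by positivity
    have h1 := (hw.1.min_const ht).const_mul ((k : ℝ) + 1)
    have hu1 : ∀ᵐ z, |((k : ℝ) + 1) * min (w z) (1 / ((k : ℝ) + 1))| ≤ 1 := by
      filter_upwards [hw0] with z hz
      have h2 : 0 ≤ min (w z) (1 / ((k : ℝ) + 1)) := le_min hz ht
      rw [abs_of_nonneg (mul_nonneg hk.le h2)]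
      calc ((k : ℝ) + 1) * min (w z) (1 / ((k : ℝ) + 1)) ≤ ((k : ℝ) + 1) * (1 / ((k : ℝ) + 1)) :=
            mul_le_mul_of_nonneg_left (min_le_right _ _) hk.le
        _ = 1 := by field_simp
    have hL := memLp_smul_of_le_one h1.1.1 hu1 hΨ.2
    have h2 := h1.mul hΨ hvb hL
    rw [inter_univ] at h2
    have h3 := hw.all hΩ hfin h2
    have i1 : Integrable (fun z => ⟪W z, (((k : ℝ) + 1) * min (w z) (1 / ((k : ℝ) + 1))) • H z⟫)
        volume := integrable_inner_of_memLp hw.1.2 hL
    have i2 := integrable_inner_of_memLp hw.1.2 h2.2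
    have e1 : ∫ z, ⟪W z, (((k : ℝ) + 1) * min (w z) (1 / ((k : ℝ) + 1))) • H z⟫ ≤
        ∫ z, ((k : ℝ) + 1) * min (w z) (1 / ((k : ℝ) + 1)) * v z := by
      rw [← h3]
      apply integral_mono_ae i1 i2
      filter_upwards [h0] with z hz
      rw [inner_add_right]
      have h4 : 0 ≤ ⟪W z, v z • ((k : ℝ) + 1) • (if w z < 1 / ((k : ℝ) + 1) then W z else 0)⟫ := by
        rw [inner_smul_right, inner_smul_right]
        apply mul_nonneg hz
        apply mul_nonneg hk.le
        split_ifs
        · exact real_inner_self_nonneg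
        · simp
      linarith
    refine e1.trans ?_
    apply integral_mono_ae _ hint
    · filter_upwards [h0, hu1] with z hz hz1
      exact mul_le_of_le_one_left hz ((le_abs_self _).trans hz1)
    · refine hint.mono (h1.1.1.mul hint.1) ?_
      filter_upwards [hu1] with z hz
      rw [norm_mul]
      exact mul_le_of_le_one_left (norm_nonneg _) hz
  have hlim : Tendsto (fun k : ℕ => ∫ z, ⟪W z, (((k : ℝ) + 1) * min (w z) (1 / ((k : ℝ) + 1))) •
      H z⟫) atTop (𝓝 (∫ z, ⟪W z, H z⟫)) := by
    apply tendsto_integral_of_dominated_convergence (fun z => ‖W z‖ * ‖H z‖)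
    · intro k
      exact hw.1.2.1.inner (((aestronglyMeasurable_const (b := (k : ℝ) + 1)).mul
        (hw.1.1.1.inf aestronglyMeasurable_const)).smul hΨ.2.1)
    · exact hw.1.2.norm.integrable_mul hΨ.2.norm
    · intro k
      have hk : (0 : ℝ) < (k : ℝ) + 1 := by positivity
      have ht : (0 : ℝ) ≤ 1 / ((k : ℝ) + 1) := by positivity
      filter_upwards [hw0] with z hz
      refine (norm_inner_le_norm _ _).trans ?_
      apply mul_le_mul_of_nonneg_left _ (norm_nonneg _)
      rw [norm_smul]
      apply mul_le_of_le_one_left (norm_nonneg _)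
      have h2 : 0 ≤ min (w z) (1 / ((k : ℝ) + 1)) := le_min hz ht
      rw [Real.norm_eq_abs, abs_of_nonneg (mul_nonneg hk.le h2)]
      calc ((k : ℝ) + 1) * min (w z) (1 / ((k : ℝ) + 1)) ≤ ((k : ℝ) + 1) * (1 / ((k : ℝ) + 1)) :=
            mul_le_mul_of_nonneg_left (min_le_right _ _) hk.le
        _ = 1 := by field_simp
    · filter_upwards [hw0, hWz] with z hz hz0
      rcases hz.eq_or_lt with h | h
      · rw [hz0 h.symm]
        simp
      · have hev : ∀ᶠ k : ℕ in atTop, 1 / ((k : ℝ) + 1) < w z :=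
          tendsto_one_div_add_atTop_nhds_zero_nat.eventually (gt_mem_nhds h)
        apply tendsto_const_nhds.congr'
        filter_upwards [hev] with k hk
        rw [min_eq_right hk.le]
        have hk' : ((k : ℝ) + 1) * (1 / ((k : ℝ) + 1)) = 1 := by
          have : (0 : ℝ) < (k : ℝ) + 1 := by positivity
          field_simp
        rw [hk', one_smul]
  exact le_of_tendsto' hlim step

open Classical in
/-- Condition (S), for bounded test functions. -/
theorem cond_S_bdd (hΩ : IsOpen Ω) (hfin : volume Ω < ⊤) (hw : IsTorsion Ω w W) (hU : IsOpen U)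
    (hUfin : volume U < ⊤)
    (hf : H10 B (B.indicator fun z => max (1 / 2 - w z) 0)
      ((B ∩ {z | w z < 1 / 2}).indicator fun z => - W z))
    (hΦ : H10 U v H) (h0 : ∀ᵐ z, 0 ≤ v z) {n : ℝ} (hn : ∀ᵐ z, v z ≤ n) :
    ∫ z, ⟪W z + (B ∩ {z | w z < 1 / 2}).indicator (fun z => - W z) z, H z⟫ ≤ ∫ z, v z := by
  set f : ℂ → ℝ := B.indicator fun z => max (1 / 2 - w z) 0 with hfdef
  set F : ℂ → ℂ := (B ∩ {z | w z < 1 / 2}).indicator fun z => - W z with hFdef
  have hf0 : ∀ z, 0 ≤ f z := fun z => indicator_nonneg (fun _ _ => le_max_right _ _) z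
  have hFf : ∀ z, 0 < f z ↔ z ∈ B ∩ {z | w z < 1 / 2} := by
    intro z
    by_cases hz : z ∈ B
    · rw [hfdef, indicator_of_mem hz]
      constructor
      · intro h
        refine ⟨hz, ?_⟩
        by_contra h'
        have h'' : 1 / 2 - w z ≤ 0 := by simpa using h'
        rw [max_eq_right h''] at h
        exact lt_irrefl _ h
      · intro h
        have h'' : 0 < 1 / 2 - w z := by linarith [h.2.out]
        exact lt_max_of_lt_left h''
    · rw [hfdef, indicator_of_notMem hz]
      simp [hz]
  have hvb : ∀ᵐ z, |v z| ≤ n := by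
    filter_upwards [h0, hn] with z h1 h2
    rwa [abs_of_nonneg h1]
  have hvi : Integrable v volume := hΦ.integrable hU hUfin
  have hWF : ∀ z, ⟪W z, F z⟫ ≤ 0 := by
    intro z
    by_cases hz : z ∈ B ∩ {z | w z < 1 / 2}
    · rw [hFdef, indicator_of_mem hz, inner_neg_right]
      linarith [real_inner_self_nonneg (x := W z)]
    · rw [hFdef, indicator_of_notMem hz, inner_zero_right]
  have step : ∀ k : ℕ, ∫ z, ⟪W z, (1 - min ((k : ℝ) * f z) 1) • H z⟫ ≤ ∫ z, v z := by
    intro k
    have hk : (0 : ℝ) ≤ k := by positivity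
    have hg := (hf.const_mul (k : ℝ)).min_const (zero_le_one)
    set g : ℂ → ℝ := fun z => min ((k : ℝ) * f z) 1 with hgdef
    have hg01 : ∀ z, 0 ≤ g z ∧ g z ≤ 1 := fun z =>
      ⟨le_min (mul_nonneg hk (hf0 z)) zero_le_one, min_le_right _ _⟩
    have hL : MemLp (fun z => g z • H z) 2 volume := memLp_smul_of_le_one hg.1.1
      (Eventually.of_forall fun z => by rw [abs_of_nonneg (hg01 z).1]; exact (hg01 z).2) hΦ.2
    have h2 := ((hg.mul hΦ hvb hL).mono (inter_subset_right : B ∩ U ⊆ U))
    have h3 := hΦ.sub h2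
    have h4 := h3.mono (subset_univ U)
    have h5 := sub_star hΩ hfin hw h4 (n := n) (by
      filter_upwards [h0] with z hz
      have := mul_le_of_le_one_left hz (hg01 z).2
      change 0 ≤ v z - g z * v z
      linarith) (by
      filter_upwards [h0, hn] with z hz hz'
      have := mul_nonneg (hg01 z).1 hz
      change v z - g z * v z ≤ n
      linarith) (h3.integrable hU hUfin)
    have hgv : Integrable (fun z => v z - g z * v z) volume := h3.integrable hU hUfin
    have e1 : ∫ z, (v z - g z * v z) ≤ ∫ z, v z := by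
      apply integral_mono_ae hgv hvi
      filter_upwards [h0] with z hz
      have := mul_nonneg (hg01 z).1 hz
      linarith
    refine le_trans ?_ (h5.trans e1)
    have hL' : MemLp (fun z => (1 - g z) • H z) 2 volume := memLp_smul_of_le_one
      (aestronglyMeasurable_const.sub hg.1.1)
      (Eventually.of_forall fun z => by
        rw [abs_of_nonneg (by linarith [(hg01 z).2])]; linarith [(hg01 z).1]) hΦ.2
    apply integral_mono_ae (integrable_inner_of_memLp hw.1.2 hL')
      (integrable_inner_of_memLp hw.1.2 h4.2)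
    filter_upwards [h0] with z hz
    have h6 : ⟪W z, v z • (if (k : ℝ) * f z < 1 then (k : ℝ) • F z else 0)⟫ ≤ 0 := by
      rw [inner_smul_right]
      apply mul_nonpos_of_nonneg_of_nonpos hz
      split_ifs
      · rw [inner_smul_right]
        exact mul_nonpos_of_nonneg_of_nonpos hk (hWF z)
      · simp
    change ⟪W z, (1 - g z) • H z⟫ ≤
      ⟪W z, H z - (g z • H z + v z • (if (k : ℝ) * f z < 1 then (k : ℝ) • F z else 0))⟫
    rw [inner_sub_right, inner_add_right, sub_smul, one_smul, inner_sub_right]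
    linarith
  have hlim : Tendsto (fun k : ℕ => ∫ z, ⟪W z, (1 - min ((k : ℝ) * f z) 1) • H z⟫) atTop
      (𝓝 (∫ z, ⟪W z + F z, H z⟫)) := by
    apply tendsto_integral_of_dominated_convergence (fun z => ‖W z‖ * ‖H z‖)
    · intro k
      exact hw.1.2.1.inner ((aestronglyMeasurable_const.sub
        (((aestronglyMeasurable_const (b := (k : ℝ))).mul hf.1.1).inf
          aestronglyMeasurable_const)).smul hΦ.2.1)
    · exact hw.1.2.norm.integrable_mul hΦ.2.norm
    · intro k
      filter_upwards with z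
      refine (norm_inner_le_norm _ _).trans ?_
      apply mul_le_mul_of_nonneg_left _ (norm_nonneg _)
      rw [norm_smul]
      apply mul_le_of_le_one_left (norm_nonneg _)
      have hk : (0 : ℝ) ≤ k := by positivity
      have h1 : 0 ≤ min ((k : ℝ) * f z) 1 := le_min (mul_nonneg hk (hf0 z)) zero_le_one
      have h2 : min ((k : ℝ) * f z) 1 ≤ 1 := min_le_right _ _
      rw [Real.norm_eq_abs, abs_of_nonneg (by linarith)]
      linarith
    · filter_upwards with z
      by_cases hz : z ∈ B ∩ {z | w z < 1 / 2}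
      · have h1 : 0 < f z := (hFf z).2 hz
        have h2 : F z = - W z := by rw [hFdef, indicator_of_mem hz]
        rw [h2, add_neg_cancel, inner_zero_left]
        have hev : ∀ᶠ k : ℕ in atTop, 1 / f z ≤ (k : ℝ) :=
          tendsto_natCast_atTop_atTop.eventually (eventually_ge_atTop _)
        apply tendsto_const_nhds.congr'
        filter_upwards [hev] with k hk
        have h3 : 1 ≤ (k : ℝ) * f z := by
          rw [div_le_iff₀ h1] at hk
          exact hk
        rw [min_eq_right h3, sub_self, zero_smul, inner_zero_right]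
      · have h1 : f z = 0 := by
          have : ¬ 0 < f z := fun h => hz ((hFf z).1 h)
          exact le_antisymm (not_lt.1 this) (hf0 z)
        have h2 : F z = 0 := by rw [hFdef, indicator_of_notMem hz]
        rw [h2, add_zero]
        apply tendsto_const_nhds.congr
        intro k
        rw [h1, mul_zero, min_eq_left zero_le_one, sub_zero, one_smul]
  exact le_of_tendsto' hlim step

open Classical in
/-- Condition (S). -/
theorem cond_S (hΩ : IsOpen Ω) (hfin : volume Ω < ⊤) (hw : IsTorsion Ω w W) (hU : IsOpen U)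
    (hUfin : volume U < ⊤)
    (hf : H10 B (B.indicator fun z => max (1 / 2 - w z) 0)
      ((B ∩ {z | w z < 1 / 2}).indicator fun z => - W z))
    (hΦ : H10 U v H) (h0 : ∀ᵐ z, 0 ≤ v z) :
    ∫ z, ⟪W z + (B ∩ {z | w z < 1 / 2}).indicator (fun z => - W z) z, H z⟫ ≤ ∫ z, v z := by
  have hvi : Integrable v volume := hΦ.integrable hU hUfin
  have hW' : MemLp (fun z => W z + (B ∩ {z | w z < 1 / 2}).indicator (fun z => - W z) z) 2 volume :=
    hw.1.2.add hf.2
  have step : ∀ n : ℕ, ∫ z, ⟪W z + (B ∩ {z | w z < 1 / 2}).indicator (fun z => - W z) z,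
      if v z < (n : ℝ) then H z else 0⟫ ≤ ∫ z, v z := by
    intro n
    have h1 := hΦ.min_const (Nat.cast_nonneg n)
    have h2 := cond_S_bdd hΩ hfin hw hU hUfin hf h1 (by
      filter_upwards [h0] with z hz
      exact le_min hz (Nat.cast_nonneg n)) (n := n) (Eventually.of_forall fun z => min_le_right _ _)
    refine h2.trans ?_
    exact integral_mono_ae (h1.integrable hU hUfin) hvi
      (Eventually.of_forall fun z => min_le_left _ _)
  have hlim : Tendsto (fun n : ℕ => ∫ z, ⟪W z + (B ∩ {z | w z < 1 / 2}).indicator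
      (fun z => - W z) z, if v z < (n : ℝ) then H z else 0⟫) atTop
      (𝓝 (∫ z, ⟪W z + (B ∩ {z | w z < 1 / 2}).indicator (fun z => - W z) z, H z⟫)) := by
    apply tendsto_integral_of_dominated_convergence (fun z => ‖W z + (B ∩ {z | w z < 1 / 2}).indicator
      (fun z => - W z) z‖ * ‖H z‖)
    · intro n
      exact hW'.1.inner (hΦ.min_const (Nat.cast_nonneg n)).2.1
    · exact hW'.norm.integrable_mul hΦ.2.norm
    · intro n
      filter_upwards with z
      refine (norm_inner_le_norm _ _).trans ?_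
      apply mul_le_mul_of_nonneg_left _ (norm_nonneg _)
      split_ifs
      · exact le_rfl
      · simp
    · filter_upwards with z
      have hev : ∀ᶠ n : ℕ in atTop, v z < (n : ℝ) :=
        tendsto_natCast_atTop_atTop.eventually (eventually_gt_atTop _)
      apply tendsto_const_nhds.congr'
      filter_upwards [hev] with n hn
      rw [if_pos hn]
  exact le_of_tendsto' hlim step

end M7

end Pool.Agent.H41.Ev
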